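import Mathlib
import Pool.Agent.H84.Continuation

/-!
# Continuation of nondegenerate solutions: a convenient form

`countable_bad` of helper file `H84/Continuation` for an arbitrary finite index type, with the
Jacobian condition stated as: over every `ℂ`-algebra, the only first-order solution at parameter
value `0` is zero.
-/

set_option autoImplicit false

namespace Pool.Agent.H71.Conic

open MvPolynomial

/-- For all but countably many `c` the system has a solution with parameter value `c`. -/
theorem countable_bad' {U : Type} [Fintype U] (E : U → MvPolynomial (Option U) ℂ)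
    (h0 : ∀ i, eval (0 : Option U → ℂ) (E i) = 0)
    (hJ : ∀ (S : Type) [CommRing S] [Algebra ℂ S] (y : Option U → S), y none = 0 →
      (∀ u v, y u * y v = 0) → (∀ i, aeval y (E i) = 0) → y = 0) :
    Set.Countable {c : ℂ | ¬ ∃ y : Option U → ℂ, y none = c ∧ ∀ i, eval y (E i) = 0} := by
  classical
  set M := Fintype.card U with hM
  let ε : U ≃ Fin M := Fintype.equivFin U
  let E' : Fin M → MvPolynomial (Option (Fin M)) ℂ :=
    fun i => rename (Option.map ε) (E (ε.symm i))
  have hcount := Pool.Agent.H84.countable_bad E' ?_ ?_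
  · refine hcount.mono ?_
    intro c hc hcon
    apply hc
    obtain ⟨y, hyc, hy⟩ := hcon
    refine ⟨fun u => y (Option.map ε u), hyc, fun i => ?_⟩
    have h1 := hy (ε i)
    show eval (y ∘ Option.map ε) (E i) = 0
    rw [← eval_rename]
    simpa [E'] using h1
  · intro i
    show eval 0 (rename (Option.map ε) (E (ε.symm i))) = 0
    rw [eval_rename]
    exact h0 _
  · set 𝔪 : Ideal (MvPolynomial (Option (Fin M)) ℂ) :=
      vanishingIdeal ℂ {(0 : Option (Fin M) → ℂ)} with h𝔪
    have hmem : ∀ P : MvPolynomial (Option (Fin M)) ℂ, P ∈ 𝔪 ↔ eval 0 P = 0 := by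
      intro P
      rw [h𝔪, mem_vanishingIdeal_singleton_iff]
      rfl
    set J : Ideal (MvPolynomial (Option (Fin M)) ℂ) :=
      (Ideal.span (Set.range E') ⊔ Ideal.span {X none}) ⊔ 𝔪 • 𝔪 with hJdef
    let S := MvPolynomial (Option (Fin M)) ℂ ⧸ J
    let ψ : MvPolynomial (Option (Fin M)) ℂ →ₐ[ℂ] S := Ideal.Quotient.mkₐ ℂ J
    have hψ : ∀ a : MvPolynomial (Option (Fin M)) ℂ, ψ a = 0 ↔ a ∈ J :=
      fun a => Ideal.Quotient.eq_zero_iff_mem
    let y : Option U → S := fun u => ψ (X (Option.map ε u))
    have hy : y = 0 := by
      apply hJ S y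
      · rw [hψ]
        exact Ideal.mem_sup_left (Ideal.mem_sup_right (Ideal.subset_span rfl))
      · intro u v
        show ψ _ * ψ _ = 0
        rw [← map_mul, hψ]
        refine Ideal.mem_sup_right (Submodule.smul_mem_smul ?_ ?_)
        · rw [hmem]; simp
        · rw [hmem]; simp
      · intro i
        have h1 : aeval y (E i) = ψ (E' (ε i)) := by
          have h0 : E' (ε i) = rename (Option.map ε) (E i) := by
            show rename (Option.map ε) (E (ε.symm (ε i))) = _
            rw [Equiv.symm_apply_apply]
          rw [h0]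
          have h2 : (ψ.comp (rename (Option.map ε)) : MvPolynomial (Option U) ℂ →ₐ[ℂ] S) =
              aeval y := by
            ext u
            simp [y]
          exact (DFunLike.congr_fun h2 _).symm
        rw [h1, hψ]
        exact Ideal.mem_sup_left (Ideal.mem_sup_left (Ideal.subset_span ⟨_, rfl⟩))
    intro P hP
    have hP0 := (hmem P).mp hP
    have hspan : P ∈ Ideal.span (X '' (Set.univ : Set (Option (Fin M))) :
        Set (MvPolynomial (Option (Fin M)) ℂ)) := by
      rw [MvPolynomial.mem_ideal_span_X_image]
      intro d hd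
      by_contra hcon
      push Not at hcon
      have hd0 : d = 0 := by
        ext i
        exact hcon i (Set.mem_univ i)
      rw [hd0, mem_support_iff] at hd
      apply hd
      rw [← constantCoeff_eq, ← hP0]
      simp [constantCoeff_eq]
    refine Ideal.span_le.mpr ?_ hspan
    rintro _ ⟨i, -, rfl⟩
    have h3 : ∃ u : Option U, Option.map ε u = i := by
      rcases i with _ | k
      · exact ⟨none, rfl⟩
      · exact ⟨some (ε.symm k), by simp⟩
    obtain ⟨u, hu⟩ := h3
    have h4 := congrFun hy u
    have h5 : ψ (X (Option.map ε u)) = 0 := h4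
    rw [hu, hψ] at h5
    exact h5

end Pool.Agent.H71.Conic
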