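import Mathlib
import Pool.Agent.H71.Conic.Bad

/-!
# A special system of forms containing a conic with invertible Jacobian

For `e_1 + … + e_c = N` and some `e_i ≥ 2` we give forms `G⁰_i` of degrees `e_i` in the
coordinates `X_∞`, `X_(i,j)` (`j < e_i`) vanishing on the conic `X_0 X_1 = X_∞²`, and deduce that
for every system of forms `G_i` of degrees `e_i` vanishing at `[1:1:1:0:…:0]` and for all but
countably many `τ` the system `(1 - τ) G⁰ + τ G` contains a non-constant conic
`s ↦ C + (x - B - C) s + B s²`.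
-/

set_option autoImplicit false

namespace Pool.Agent.H71.Conic

open MvPolynomial

section Phi

variable {J : Type} [DecidableEq J]

section Ring

variable {S : Type*} [CommRing S] [Algebra ℂ S]

/-- The first-order variation of a coordinate. -/
noncomputable def dl (b c : J → S) (j : J) : Polynomial S :=
  (Polynomial.X - 1) * (Polynomial.C (b j) * Polynomial.X - Polynomial.C (c j))

/-- The special conic. -/
noncomputable def phi0 (j0 j1 : J) (j : J) : Polynomial S :=
  if j = j0 then Polynomial.X ^ 2 else if j = j1 then 1 else 0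

/-- The parametrised conic. -/
noncomputable def phi (j0 j1 : J) (b c : J → S) (o : Option J) : Polynomial S :=
  o.elim Polynomial.X (fun j => phi0 j0 j1 j + dl b c j)

/-- The restriction of a polynomial to the parametrised conic. -/
noncomputable def conic (j0 j1 : J) (b c : J → S) (H : MvPolynomial (Option J) ℂ) :
    Polynomial S :=
  aeval (phi j0 j1 b c) H

omit [Algebra ℂ S] in
lemma natDegree_phi (j0 j1 : J) (b c : J → S) (o : Option J) :
    (phi j0 j1 b c o).natDegree ≤ 2 := by
  rcases o with _ | j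
  · show (Polynomial.X : Polynomial S).natDegree ≤ 2
    exact Polynomial.natDegree_X_le.trans (by norm_num)
  · show (phi0 j0 j1 j + dl b c j).natDegree ≤ 2
    refine (Polynomial.natDegree_add_le _ _).trans (max_le ?_ ?_)
    · unfold phi0
      split_ifs
      · exact Polynomial.natDegree_X_pow_le 2
      · simp
      · simp
    · unfold dl
      refine Polynomial.natDegree_mul_le.trans ?_
      have h1 : (Polynomial.X - 1 : Polynomial S).natDegree ≤ 1 := by
        refine (Polynomial.natDegree_sub_le _ _).trans (max_le Polynomial.natDegree_X_le ?_)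
        simp
      have h2 : (Polynomial.C (b j) * Polynomial.X - Polynomial.C (c j) :
          Polynomial S).natDegree ≤ 1 := by
        refine (Polynomial.natDegree_sub_le _ _).trans (max_le ?_ (by simp))
        exact (Polynomial.natDegree_C_mul_le _ _).trans Polynomial.natDegree_X_le
      omega

lemma natDegree_conic [Fintype J] (j0 j1 : J) (b c : J → S) (H : MvPolynomial (Option J) ℂ)
    {e : ℕ} (hH : H.totalDegree ≤ e) : (conic j0 j1 b c H).natDegree ≤ 2 * e := by
  unfold conic
  rw [aeval_def, eval₂_eq']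
  apply Polynomial.natDegree_sum_le_of_forall_le
  intro d hd
  refine Polynomial.natDegree_mul_le.trans ?_
  rw [Polynomial.algebraMap_apply, Polynomial.natDegree_C, zero_add]
  refine (Polynomial.natDegree_prod_le _ _).trans ?_
  have h1 : ∑ i, d i ≤ e := by
    refine le_trans ?_ hH
    have := le_totalDegree hd
    rwa [Finsupp.sum_fintype _ _ (fun _ => rfl)] at this
  calc ∑ i, (phi j0 j1 b c i ^ d i).natDegree ≤ ∑ i, 2 * d i := by
        refine Finset.sum_le_sum fun i _ => ?_
        refine Polynomial.natDegree_pow_le.trans ?_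
        have := natDegree_phi j0 j1 b c i
        nlinarith
    _ = 2 * ∑ i, d i := by rw [Finset.mul_sum]
    _ ≤ 2 * e := by omega

/-- The base point. -/
def base (j0 j1 : J) (o : Option J) : ℂ :=
  o.elim 1 (fun j => if j = j0 then 1 else if j = j1 then 1 else 0)

lemma eval_one_phi (j0 j1 : J) (b c : J → S) (o : Option J) :
    (phi j0 j1 b c o).eval 1 = algebraMap ℂ S (base j0 j1 o) := by
  rcases o with _ | j
  · show (Polynomial.X : Polynomial S).eval 1 = algebraMap ℂ S 1
    simp
  · show (phi0 j0 j1 j + dl b c j).eval 1 =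
      algebraMap ℂ S (if j = j0 then 1 else if j = j1 then 1 else 0)
    unfold phi0 dl
    split_ifs <;> simp

lemma eval_one_conic (j0 j1 : J) (b c : J → S) (H : MvPolynomial (Option J) ℂ) :
    (conic j0 j1 b c H).eval 1 = algebraMap ℂ S (eval (base j0 j1) H) := by
  unfold conic
  have h : ((Polynomial.evalRingHom (1 : S)).comp
      (aeval (phi j0 j1 b c) : MvPolynomial (Option J) ℂ →ₐ[ℂ] Polynomial S).toRingHom) =
      (algebraMap ℂ S).comp (eval (base j0 j1)) := by
    apply MvPolynomial.ringHom_ext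
    · intro r
      simp
    · intro i
      simp [eval_one_phi]
  exact DFunLike.congr_fun h H

lemma map_conic {T : Type*} [CommRing T] [Algebra ℂ T] (ψ : S →ₐ[ℂ] T) (j0 j1 : J)
    (b c : J → S) (H : MvPolynomial (Option J) ℂ) :
    (conic j0 j1 b c H).map (ψ : S →+* T) =
      conic j0 j1 (fun j => ψ (b j)) (fun j => ψ (c j)) H := by
  unfold conic
  have h : ((Polynomial.mapRingHom (ψ : S →+* T)).comp
      (aeval (phi j0 j1 b c) : MvPolynomial (Option J) ℂ →ₐ[ℂ] Polynomial S).toRingHom) =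
      (aeval (phi j0 j1 (fun j => ψ (b j)) (fun j => ψ (c j))) :
        MvPolynomial (Option J) ℂ →ₐ[ℂ] Polynomial T).toRingHom := by
    apply MvPolynomial.ringHom_ext
    · intro r
      simp
    · intro i
      rcases i with _ | j
      · simp [phi]
      · simp only [phi, phi0, dl, RingHom.comp_apply, AlgHom.toRingHom_eq_coe, RingHom.coe_coe,
          aeval_X, Option.elim_some, Polynomial.coe_mapRingHom]
        split_ifs <;> simp
  exact DFunLike.congr_fun h H

omit [Algebra ℂ S] in
lemma mul_add_pow {δ δ' a : S} (h : δ * δ' = 0) (n : ℕ) : δ * (a + δ') ^ n = δ * a ^ n := by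
  induction n with
  | zero => simp
  | succ n ih =>
    rw [pow_succ, ← mul_assoc, ih, pow_succ]
    have : δ * a ^ n * (a + δ') = δ * a ^ n * a + a ^ n * (δ * δ') := by ring
    rw [this, h]
    ring

omit [DecidableEq J] [Algebra ℂ S] in
lemma dl_mul {b c : J → S} (hbb : ∀ j k, b j * b k = 0) (hbc : ∀ j k, b j * c k = 0)
    (hcc : ∀ j k, c j * c k = 0) (j k : J) : dl b c j * dl b c k = 0 := by
  unfold dl
  have h1 : (Polynomial.C (b j) * Polynomial.X - Polynomial.C (c j) : Polynomial S) *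
      (Polynomial.C (b k) * Polynomial.X - Polynomial.C (c k)) =
      Polynomial.C (b j * b k) * Polynomial.X ^ 2 -
      Polynomial.C (b j * c k) * Polynomial.X - Polynomial.C (b k * c j) * Polynomial.X +
      Polynomial.C (c j * c k) := by
    simp only [Polynomial.C_mul]
    ring
  calc _ = (Polynomial.X - 1) * (Polynomial.X - 1) *
        ((Polynomial.C (b j) * Polynomial.X - Polynomial.C (c j) : Polynomial S) *
      (Polynomial.C (b k) * Polynomial.X - Polynomial.C (c k))) := by ring
    _ = 0 := by rw [h1, hbb, hbc, hbc, hcc]; simp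

end Ring

end Phi

section System

variable {c : ℕ} {e : Fin c → ℕ}

/-- The finite coordinates. -/
abbrev Idx (e : Fin c → ℕ) : Type := Σ i : Fin c, Fin (e i)

/-- The monomials of the special forms. -/
noncomputable def mono (j0 j1 : Idx e) (i : Fin c) (j : Fin (e i)) :
    MvPolynomial (Option (Idx e)) ℂ :=
  X (some ⟨i, j⟩) * X (some j0) ^ (j : ℕ) * X (some j1) ^ (e i - 1 - j)

/-- The special forms. -/
noncomputable def spec (i₀ : Fin c) (h : 2 ≤ e i₀) (i : Fin c) :
    MvPolynomial (Option (Idx e)) ℂ :=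
  (if i = i₀ then (X (some ⟨i₀, ⟨0, by omega⟩⟩) * X (some ⟨i₀, ⟨1, by omega⟩⟩) - X none ^ 2) *
    X (some ⟨i₀, ⟨1, by omega⟩⟩) ^ (e i₀ - 2) else 0) +
  ∑ j : Fin (e i), if i = i₀ ∧ (j : ℕ) < 2 then 0 else
    mono ⟨i₀, ⟨0, by omega⟩⟩ ⟨i₀, ⟨1, by omega⟩⟩ i j

lemma isHomogeneous_spec (i₀ : Fin c) (h : 2 ≤ e i₀) (i : Fin c) :
    (spec i₀ h i).IsHomogeneous (e i) := by
  unfold spec
  apply IsHomogeneous.add
  · split_ifs with hi
    · subst hi
      have h1 := ((isHomogeneous_X ℂ (some (⟨i, ⟨0, by omega⟩⟩ : Idx e))).mul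
        (isHomogeneous_X ℂ (some (⟨i, ⟨1, by omega⟩⟩ : Idx e)))).sub
        ((isHomogeneous_X ℂ (none : Option (Idx e))).pow 2)
      have h2 := h1.mul ((isHomogeneous_X ℂ (some (⟨i, ⟨1, by omega⟩⟩ : Idx e))).pow (e i - 2))
      have h3 : 1 + 1 + 1 * (e i - 2) = e i := by omega
      rwa [h3] at h2
    · exact isHomogeneous_zero _ _ _
  · apply IsHomogeneous.sum
    intro j _
    split_ifs with hj
    · exact isHomogeneous_zero _ _ _
    · unfold mono
      have h1 := ((isHomogeneous_X ℂ (some (⟨i, j⟩ : Idx e))).mul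
        ((isHomogeneous_X ℂ (some (⟨i₀, ⟨0, by omega⟩⟩ : Idx e))).pow (j : ℕ))).mul
        ((isHomogeneous_X ℂ (some (⟨i₀, ⟨1, by omega⟩⟩ : Idx e))).pow (e i - 1 - j))
      have h3 : 1 + 1 * (j : ℕ) + 1 * (e i - 1 - j) = e i := by
        have := j.2
        omega
      rwa [h3] at h1

variable {S : Type*} [CommRing S] [Algebra ℂ S]

lemma conic_spec (i₀ : Fin c) (h : 2 ≤ e i₀) (i : Fin c) (b d : Idx e → S)
    (hbb : ∀ j k, b j * b k = 0) (hbc : ∀ j k, b j * d k = 0) (hcc : ∀ j k, d j * d k = 0) :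
    conic ⟨i₀, ⟨0, by omega⟩⟩ ⟨i₀, ⟨1, by omega⟩⟩ b d (spec i₀ h i) =
      ∑ j : Fin (e i), dl b d ⟨i, j⟩ * Polynomial.X ^ (2 * (j : ℕ)) := by
  have hdl := dl_mul hbb hbc hcc
  set j0 : Idx e := ⟨i₀, ⟨0, by omega⟩⟩ with hj0
  set j1 : Idx e := ⟨i₀, ⟨1, by omega⟩⟩ with hj1
  have hj01 : j1 ≠ j0 := by
    rw [hj0, hj1]
    intro hh
    simp at hh
  have hφ0 : phi j0 j1 b d (some j0) = Polynomial.X ^ 2 + dl b d j0 := by
    show phi0 j0 j1 j0 + dl b d j0 = _
    unfold phi0
    rw [if_pos rfl]
  have hφ1 : phi j0 j1 b d (some j1) = 1 + dl b d j1 := by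
    show phi0 j0 j1 j1 + dl b d j1 = _
    unfold phi0
    rw [if_neg hj01, if_pos rfl]
  have hφ : ∀ j : Idx e, j ≠ j0 → j ≠ j1 → phi j0 j1 b d (some j) = dl b d j := by
    intro j h0 h1
    show phi0 j0 j1 j + dl b d j = _
    unfold phi0
    rw [if_neg h0, if_neg h1, zero_add]
  have hmono : ∀ j : Fin (e i), ¬ (i = i₀ ∧ (j : ℕ) < 2) →
      aeval (phi j0 j1 b d) (mono j0 j1 i j) = dl b d ⟨i, j⟩ * Polynomial.X ^ (2 * (j : ℕ)) := by
    intro j hj
    unfold mono
    rw [map_mul, map_mul, map_pow, map_pow, aeval_X, aeval_X, aeval_X, hφ0, hφ1]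
    rw [hφ ⟨i, j⟩ ?_ ?_]
    · rw [mul_add_pow (hdl _ _)]
      have : dl b d ⟨i, j⟩ * (Polynomial.X ^ 2) ^ (j : ℕ) * (1 + dl b d j1) ^ (e i - 1 - j) =
          (Polynomial.X ^ 2) ^ (j : ℕ) * (dl b d ⟨i, j⟩ * (1 + dl b d j1) ^ (e i - 1 - j)) := by
        ring
      rw [this, mul_add_pow (hdl _ _), one_pow, mul_one, ← pow_mul, mul_comm]
    · intro hh
      apply hj
      rw [hj0] at hh
      have h1 : i = i₀ := congrArg Sigma.fst hh
      subst h1
      simp only [Sigma.mk.injEq, heq_eq_eq, true_and] at hh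
      refine ⟨rfl, ?_⟩
      rw [hh]
      simp
    · intro hh
      apply hj
      rw [hj1] at hh
      have h1 : i = i₀ := congrArg Sigma.fst hh
      subst h1
      simp only [Sigma.mk.injEq, heq_eq_eq, true_and] at hh
      refine ⟨rfl, ?_⟩
      rw [hh]
      simp
  unfold conic spec
  rw [map_add, map_sum]
  have hsum : ∀ j : Fin (e i), (aeval (phi j0 j1 b d)) (if i = i₀ ∧ (j : ℕ) < 2 then 0 else
      mono j0 j1 i j) = if i = i₀ ∧ (j : ℕ) < 2 then 0 else
        dl b d ⟨i, j⟩ * Polynomial.X ^ (2 * (j : ℕ)) := by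
    intro j
    split_ifs with hj
    · exact map_zero _
    · exact hmono j hj
  rw [Finset.sum_congr rfl (fun j _ => hsum j)]
  by_cases hi : i = i₀
  · subst hi
    rw [if_pos rfl, map_mul, map_sub, map_mul, map_pow, map_pow, aeval_X, aeval_X, aeval_X,
      hφ0, hφ1]
    have h2 : phi j0 j1 b d none = Polynomial.X := rfl
    rw [h2]
    have h3 : ((Polynomial.X ^ 2 + dl b d j0) * (1 + dl b d j1) - Polynomial.X ^ 2) *
        (1 + dl b d j1) ^ (e i - 2) = dl b d j0 + dl b d j1 * Polynomial.X ^ 2 := by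
      have h4 : (Polynomial.X ^ 2 + dl b d j0) * (1 + dl b d j1) - Polynomial.X ^ 2 =
          dl b d j0 + dl b d j1 * Polynomial.X ^ 2 := by
        have := hdl j0 j1
        linear_combination this
      rw [h4, add_mul, mul_add_pow (hdl _ _)]
      have h5 : dl b d j1 * Polynomial.X ^ 2 * (1 + dl b d j1) ^ (e i - 2) =
        Polynomial.X ^ 2 * (dl b d j1 * (1 + dl b d j1) ^ (e i - 2)) := by ring
      rw [h5, mul_add_pow (hdl _ _)]
      simp [mul_comm]
    rw [h3]
    have h6 : ∀ j : Fin (e i), dl b d ⟨i, j⟩ * Polynomial.X ^ (2 * (j : ℕ)) =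
        (if (j : ℕ) < 2 then dl b d ⟨i, j⟩ * Polynomial.X ^ (2 * (j : ℕ)) else 0) +
        (if i = i ∧ (j : ℕ) < 2 then 0 else dl b d ⟨i, j⟩ * Polynomial.X ^ (2 * (j : ℕ))) := by
      intro j
      by_cases hj : (j : ℕ) < 2 <;> simp [hj]
    rw [Finset.sum_congr rfl (fun j _ => h6 j), Finset.sum_add_distrib]
    congr 1
    have h7 : ∀ j : Fin (e i), (if (j : ℕ) < 2 then
        dl b d ⟨i, j⟩ * Polynomial.X ^ (2 * (j : ℕ)) else 0) =
        (if j = ⟨0, by omega⟩ then dl b d ⟨i, j⟩ * Polynomial.X ^ (2 * (j : ℕ)) else 0) +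
        (if j = ⟨1, by omega⟩ then dl b d ⟨i, j⟩ * Polynomial.X ^ (2 * (j : ℕ)) else 0) := by
      intro j
      by_cases h0 : j = ⟨0, by omega⟩
      · subst h0
        simp
      · by_cases h1 : j = ⟨1, by omega⟩
        · subst h1
          simp
        · have : ¬ (j : ℕ) < 2 := by
            intro hj
            have : (j : ℕ) = 0 ∨ (j : ℕ) = 1 := by omega
            rcases this with h | h
            · exact h0 (Fin.ext h)
            · exact h1 (Fin.ext h)
          simp [h0, h1, this]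
    rw [Finset.sum_congr rfl (fun j _ => h7 j), Finset.sum_add_distrib, Finset.sum_ite_eq',
      Finset.sum_ite_eq', if_pos (Finset.mem_univ _), if_pos (Finset.mem_univ _)]
    simp [hj0, hj1]
  · rw [if_neg hi, map_zero, zero_add]
    apply Finset.sum_congr rfl
    intro j _
    simp [hi]

end System

end Pool.Agent.H71.Conic
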