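import Mathlib
import Pool.Agent.H71.Conic.Special

/-!
# Conics for all but countably many parameter values
-/

set_option autoImplicit false

namespace Pool.Agent.H71.Conic

open MvPolynomial

lemma zero_of_coeff {S : Type*} [CommRing S] (p : Polynomial S) (e : ℕ)
    (hdeg : p.natDegree ≤ 2 * e) (h1 : p.eval 1 = 0) (hlow : ∀ j < e, p.coeff j = 0)
    (hhigh : ∀ j < e, p.coeff (e + 1 + j) = 0) : p = 0 := by
  have hk : ∀ k, k ≠ e → p.coeff k = 0 := by
    intro k hk
    rcases lt_or_gt_of_ne hk with h | h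
    · exact hlow k h
    · by_cases h2 : k ≤ 2 * e
      · have := hhigh (k - (e + 1)) (by omega)
        rwa [show e + 1 + (k - (e + 1)) = k by omega] at this
      · exact Polynomial.coeff_eq_zero_of_natDegree_lt (by omega)
  have hp : p = Polynomial.C (p.coeff e) * Polynomial.X ^ e := by
    ext k
    rw [Polynomial.coeff_C_mul_X_pow]
    split_ifs with h
    · rw [h]
    · exact hk k h
  rw [hp] at h1
  simp only [Polynomial.eval_mul, Polynomial.eval_C, Polynomial.eval_pow, Polynomial.eval_X,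
    one_pow, mul_one] at h1
  rw [hp, h1]
  simp

/-- Independence of the first-order variations. -/
lemma eq_zero_of_sum {S : Type*} [CommRing S] {n : ℕ} (b d : Fin n → S)
    (h : ∑ j : Fin n, ((Polynomial.X - 1) *
      (Polynomial.C (b j) * Polynomial.X - Polynomial.C (d j))) * Polynomial.X ^ (2 * (j : ℕ)) =
        (0 : Polynomial S)) (j : Fin n) : b j = 0 ∧ d j = 0 := by
  have h1 : (Polynomial.X - 1 : Polynomial S) * ∑ j : Fin n,
      (Polynomial.C (b j) * Polynomial.X ^ (2 * (j : ℕ) + 1) -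
        Polynomial.C (d j) * Polynomial.X ^ (2 * (j : ℕ))) = 0 := by
    rw [← h, Finset.mul_sum]
    apply Finset.sum_congr rfl
    intro j _
    ring
  have h2 : (Polynomial.X - 1 : Polynomial S).Monic := by
    have := Polynomial.monic_X_sub_C (1 : S)
    simpa using this
  have h3 := (h2.isRegular.left) (h1.trans (mul_zero _).symm)
  constructor
  · have h4 := congrArg (fun p => Polynomial.coeff p (2 * (j : ℕ) + 1)) h3
    simp only [Polynomial.finsetSum_coeff, Polynomial.coeff_sub, Polynomial.coeff_C_mul_X_pow,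
      Polynomial.coeff_zero] at h4
    rw [Finset.sum_eq_single j] at h4
    · simpa using h4
    · intro k _ hk
      have : (k : ℕ) ≠ j := fun h => hk (Fin.ext h)
      rw [if_neg (by omega), if_neg (by omega), sub_zero]
    · intro hj
      exact absurd (Finset.mem_univ _) hj
  · have h4 := congrArg (fun p => Polynomial.coeff p (2 * (j : ℕ))) h3
    simp only [Polynomial.finsetSum_coeff, Polynomial.coeff_sub, Polynomial.coeff_C_mul_X_pow,
      Polynomial.coeff_zero] at h4
    rw [Finset.sum_eq_single j] at h4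
    · simpa using h4
    · intro k _ hk
      have : (k : ℕ) ≠ j := fun h => hk (Fin.ext h)
      rw [if_neg (by omega), if_neg (by omega), sub_zero]
    · intro hj
      exact absurd (Finset.mem_univ _) hj

section Sys

variable {J : Type} [DecidableEq J] {S : Type*} [CommRing S] [Algebra ℂ S]

/-- One member of the system, with unknowns `y` (parameter `y none`). -/
noncomputable def sys (j0 j1 : J) (G0 G : MvPolynomial (Option J) ℂ)
    (y : Option (Option (J × Bool)) → S) : Polynomial S :=
  Polynomial.C (1 - y none) * conic j0 j1 (fun j => y (some (some (j, true))))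
      (fun j => y (some (some (j, false)))) G0 +
    Polynomial.C (y none) * conic j0 j1 (fun j => y (some (some (j, true))))
      (fun j => y (some (some (j, false)))) G

lemma sys_map {T : Type*} [CommRing T] [Algebra ℂ T] (ψ : S →ₐ[ℂ] T) (j0 j1 : J)
    (G0 G : MvPolynomial (Option J) ℂ) (y : Option (Option (J × Bool)) → S) :
    (sys j0 j1 G0 G y).map (ψ : S →+* T) = sys j0 j1 G0 G (fun u => ψ (y u)) := by
  unfold sys
  rw [Polynomial.map_add, Polynomial.map_mul, Polynomial.map_mul, map_conic, map_conic,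
    Polynomial.map_C, Polynomial.map_C]
  simp only [RingHom.coe_coe, map_sub, map_one]

lemma sys_one (j0 j1 : J) (G0 G : MvPolynomial (Option J) ℂ)
    (h0 : eval (base j0 j1) G0 = 0) (h1 : eval (base j0 j1) G = 0)
    (y : Option (Option (J × Bool)) → S) : (sys j0 j1 G0 G y).eval 1 = 0 := by
  unfold sys
  rw [Polynomial.eval_add, Polynomial.eval_mul, Polynomial.eval_mul, eval_one_conic,
    eval_one_conic, h0, h1]
  simp

lemma sys_deg [Fintype J] (j0 j1 : J) (G0 G : MvPolynomial (Option J) ℂ) {e : ℕ}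
    (h0 : G0.totalDegree ≤ e) (h1 : G.totalDegree ≤ e)
    (y : Option (Option (J × Bool)) → S) : (sys j0 j1 G0 G y).natDegree ≤ 2 * e := by
  unfold sys
  refine (Polynomial.natDegree_add_le _ _).trans (max_le ?_ ?_)
  · exact (Polynomial.natDegree_C_mul_le _ _).trans (natDegree_conic _ _ _ _ _ h0)
  · exact (Polynomial.natDegree_C_mul_le _ _).trans (natDegree_conic _ _ _ _ _ h1)

lemma sys_aeval (j0 j1 : J) (G0 G : MvPolynomial (Option J) ℂ)
    (y : Option (Option (J × Bool)) → S) :
    (sys j0 j1 G0 G (X : _ → MvPolynomial (Option (Option (J × Bool))) ℂ)).map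
      ((aeval y : MvPolynomial (Option (Option (J × Bool))) ℂ →ₐ[ℂ] S) :
        MvPolynomial (Option (Option (J × Bool))) ℂ →+* S) = sys j0 j1 G0 G y := by
  rw [sys_map]
  simp only [aeval_X]

end Sys

variable {c : ℕ} {e : Fin c → ℕ}

/-- The equations. -/
noncomputable def eqn (j0 j1 : Idx e) (G0 G : Fin c → MvPolynomial (Option (Idx e)) ℂ) :
    Option (Idx e × Bool) → MvPolynomial (Option (Option (Idx e × Bool))) ℂ
  | none => (1 + X (some none)) * (1 + X (some (some (j0, true)))) - 1
  | some (p, true) => (sys j0 j1 (G0 p.1) (G p.1)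
      (X : _ → MvPolynomial (Option (Option (Idx e × Bool))) ℂ)).coeff (e p.1 + 1 + p.2)
  | some (p, false) => (sys j0 j1 (G0 p.1) (G p.1)
      (X : _ → MvPolynomial (Option (Option (Idx e × Bool))) ℂ)).coeff p.2

lemma sys_zero_of_eqn {S : Type*} [CommRing S] [Algebra ℂ S] (j0 j1 : Idx e)
    (G0 G : Fin c → MvPolynomial (Option (Idx e)) ℂ)
    (h0 : ∀ i, (G0 i).totalDegree ≤ e i) (h1 : ∀ i, (G i).totalDegree ≤ e i)
    (h00 : ∀ i, eval (base j0 j1) (G0 i) = 0) (h11 : ∀ i, eval (base j0 j1) (G i) = 0)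
    (y : Option (Option (Idx e × Bool)) → S) (hy : ∀ u, aeval y (eqn j0 j1 G0 G u) = 0)
    (i : Fin c) : sys j0 j1 (G0 i) (G i) y = 0 := by
  apply zero_of_coeff _ (e i) (sys_deg _ _ _ _ (h0 i) (h1 i) y) (sys_one _ _ _ _ (h00 i) (h11 i) y)
  · intro j hj
    have h2 := hy (some (⟨i, ⟨j, hj⟩⟩, false))
    rw [← sys_aeval j0 j1 (G0 i) (G i) y, Polynomial.coeff_map]
    simp only [eqn] at h2
    exact h2
  · intro j hj
    have h2 := hy (some (⟨i, ⟨j, hj⟩⟩, true))
    rw [← sys_aeval j0 j1 (G0 i) (G i) y, Polynomial.coeff_map]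
    simp only [eqn] at h2
    exact h2

lemma eqn_at_zero (j0 j1 : Idx e) (G0 G : Fin c → MvPolynomial (Option (Idx e)) ℂ)
    (h : ∀ i, sys j0 j1 (G0 i) (G i) (0 : Option (Option (Idx e × Bool)) → ℂ) = 0)
    (u : Option (Idx e × Bool)) :
    eval (0 : Option (Option (Idx e × Bool)) → ℂ) (eqn j0 j1 G0 G u) = 0 := by
  have hco : ∀ i k, eval (0 : Option (Option (Idx e × Bool)) → ℂ)
      ((sys j0 j1 (G0 i) (G i)
        (X : _ → MvPolynomial (Option (Option (Idx e × Bool))) ℂ)).coeff k) = 0 := by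
    intro i k
    have h1 := congrArg (fun p => Polynomial.coeff p k)
      (sys_aeval j0 j1 (G0 i) (G i) (0 : Option (Option (Idx e × Bool)) → ℂ))
    simp only [Polynomial.coeff_map, h, Polynomial.coeff_zero] at h1
    rw [← h1]
    simp
  rcases u with _ | ⟨p, β⟩
  · simp [eqn]
  · rcases β with _ | _
    · simp only [eqn]
      exact hco _ _
    · simp only [eqn]
      exact hco _ _

/-- The system contains a parametrised conic for all but countably many parameter values. -/
theorem exists_conics (i₀ : Fin c) (h : 2 ≤ e i₀)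
    (G : Fin c → MvPolynomial (Option (Idx e)) ℂ) (hG : ∀ i, (G i).totalDegree ≤ e i)
    (hG0 : ∀ i, eval (base (⟨i₀, ⟨0, by omega⟩⟩ : Idx e) ⟨i₀, ⟨1, by omega⟩⟩) (G i) = 0) :
    Set.Countable {τ : ℂ | ¬ ∃ b d : Idx e → ℂ, 1 + b ⟨i₀, ⟨0, by omega⟩⟩ ≠ 0 ∧ ∀ i,
      Polynomial.C (1 - τ) * conic ⟨i₀, ⟨0, by omega⟩⟩ ⟨i₀, ⟨1, by omega⟩⟩ b d (spec i₀ h i) +
      Polynomial.C τ * conic ⟨i₀, ⟨0, by omega⟩⟩ ⟨i₀, ⟨1, by omega⟩⟩ b d (G i) = 0} := by
  classical
  have hspec0 : ∀ i, eval (base (⟨i₀, ⟨0, by omega⟩⟩ : Idx e) ⟨i₀, ⟨1, by omega⟩⟩)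
      (spec i₀ h i) = 0 := by
    intro i
    have h1 := eval_one_conic (S := ℂ) (⟨i₀, ⟨0, by omega⟩⟩ : Idx e) ⟨i₀, ⟨1, by omega⟩⟩
      0 0 (spec i₀ h i)
    rw [conic_spec i₀ h i 0 0 (by simp) (by simp) (by simp)] at h1
    simp only [Algebra.algebraMap_self, RingHom.id_apply] at h1
    rw [← h1]
    simp [dl]
  have hspecd : ∀ i, (spec i₀ h i).totalDegree ≤ e i :=
    fun i => (isHomogeneous_spec i₀ h i).totalDegree_le
  have hconic := fun (S : Type) [CommRing S] [Algebra ℂ S] i (b d : Idx e → S) =>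
    conic_spec i₀ h i b d
  generalize hj0 : (⟨i₀, ⟨0, by omega⟩⟩ : Idx e) = j0 at *
  generalize hj1 : (⟨i₀, ⟨1, by omega⟩⟩ : Idx e) = j1 at *
  generalize hspec : spec i₀ h = G0 at *
  have hcount := countable_bad' (eqn j0 j1 G0 G) ?_ ?_
  · refine hcount.mono ?_
    intro τ hτ hcon
    apply hτ
    obtain ⟨y, hyτ, hy⟩ := hcon
    refine ⟨fun j => y (some (some (j, true))), fun j => y (some (some (j, false))), ?_, ?_⟩
    · have h1 := hy none
      intro h0
      simp only [eqn, map_sub, map_mul, map_add, map_one, eval_X] at h1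
      rw [h0, mul_zero, zero_sub] at h1
      norm_num at h1
    · intro i
      have h1 := sys_zero_of_eqn j0 j1 G0 G hspecd hG hspec0 hG0 y
        (fun u => by rw [aeval_eq_eval]; exact hy u) i
      rw [← hyτ]
      exact h1
  · -- vanishing at the origin
    apply eqn_at_zero
    intro i
    unfold sys
    rw [hconic ℂ i _ _ (by simp) (by simp) (by simp)]
    simp [dl]
  · intro S _ _ y hy0 hyy hE
    have h1 := sys_zero_of_eqn j0 j1 G0 G hspecd hG hspec0 hG0 y hE
    have h2 : ∀ (i : Fin c) (j : Fin (e i)), y (some (some (⟨i, j⟩, true))) = 0 ∧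
        y (some (some (⟨i, j⟩, false))) = 0 := by
      intro i j
      have h4 := h1 i
      unfold sys at h4
      rw [hy0, hconic S i _ _ (fun _ _ => hyy _ _) (fun _ _ => hyy _ _)
        (fun _ _ => hyy _ _), sub_zero, Polynomial.C_1, one_mul, Polynomial.C_0, zero_mul,
        add_zero] at h4
      exact eq_zero_of_sum (fun j => y (some (some (⟨i, j⟩, true))))
        (fun j => y (some (some (⟨i, j⟩, false)))) h4 j
    funext u
    rcases u with _ | u
    · exact hy0
    · rcases u with _ | ⟨⟨i, j⟩, β⟩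
      · have h4 := hE none
        simp only [eqn, map_sub, map_mul, map_add, map_one, aeval_X] at h4
        rw [(h2 j0.1 j0.2).1] at h4
        simpa using h4
      · rcases β with _ | _
        · exact (h2 i j).2
        · exact (h2 i j).1

end Pool.Agent.H71.Conic
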