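import Mathlib

/-!
# Plane conics through a point: compactness and parametrisation
-/

set_option autoImplicit false

open Filter Topology

namespace Pool.Agent.H71.Conic

variable {J : Type} [Fintype J]

/-- The point `w + t x`, where `w` has last coordinate `0` and `x` has last coordinate `1`. -/
def pt (x : Option J → ℂ) (w : J → ℂ) (t : ℂ) : Option J → ℂ :=
  fun o => o.elim t (fun j => w j + t * x (some j))

/-- The equation of a plane conic through the point `(0,0,1)`. -/
def quad (q : Fin 5 → ℂ) (a b t : ℂ) : ℂ :=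
  q 0 * a ^ 2 + q 1 * (a * b) + q 2 * b ^ 2 + t * (q 3 * a + q 4 * b)

/-- In some plane through `x`, some conic through `x` lies in the common zero set. -/
def HasConic {ι : Type} (x : Option J → ℂ) (Φ : ι → (Option J → ℂ) → ℂ) : Prop :=
  ∃ (u v : EuclideanSpace ℂ J) (q : EuclideanSpace ℂ (Fin 5)),
    ‖u‖ = 1 ∧ ‖v‖ = 1 ∧ inner ℂ u v = 0 ∧ ‖q‖ = 1 ∧
    ∀ a b t : ℂ, quad q a b t = 0 → ∀ i, Φ i (pt x (a • u + b • v : EuclideanSpace ℂ J) t) = 0

omit [Fintype J] in
lemma pt_smul (x : Option J → ℂ) (w : J → ℂ) (t k : ℂ) :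
    pt x (k • w) (k * t) = k • pt x w t := by
  funext o
  rcases o with _ | j
  · simp [pt]
  · simp [pt]
    ring

lemma small_root (A B C : ℂ) (hC : C ≠ 0) :
    ∃ l : ℂ, A + B * l + C * l ^ 2 = 0 ∧ ‖l‖ ^ 2 * ‖C‖ ≤ ‖A‖ := by
  obtain ⟨s, hs⟩ := IsAlgClosed.exists_pow_nat_eq (B ^ 2 - 4 * A * C) (n := 2) (by norm_num)
  set l1 := (-B + s) / (2 * C) with hl1
  set l2 := (-B - s) / (2 * C) with hl2
  have h1 : A + B * l1 + C * l1 ^ 2 = 0 := by
    rw [hl1]
    field_simp
    linear_combination hs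
  have h2 : A + B * l2 + C * l2 ^ 2 = 0 := by
    rw [hl2]
    field_simp
    linear_combination hs
  have h3 : l1 * l2 * C = A := by
    rw [hl1, hl2]
    field_simp
    linear_combination -hs
  have h4 : ‖l1‖ * ‖l2‖ * ‖C‖ = ‖A‖ := by
    rw [← norm_mul, ← norm_mul, h3]
  rcases le_total ‖l1‖ ‖l2‖ with h | h
  · refine ⟨l1, h1, ?_⟩
    rw [← h4, pow_two]
    gcongr
  · refine ⟨l2, h2, ?_⟩
    rw [← h4, pow_two]
    gcongr

lemma exists_quad_ne {q : Fin 5 → ℂ} (hq : q ≠ 0) : ∃ a b t : ℂ, quad q a b t ≠ 0 := by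
  by_contra h
  push Not at h
  apply hq
  have h1 := h 1 0 0
  have h2 := h 0 1 0
  have h3 := h 1 1 0
  have h4 := h 1 0 1
  have h5 := h 0 1 1
  simp only [quad] at h1 h2 h3 h4 h5
  ring_nf at h1 h2 h3 h4 h5
  funext i
  fin_cases i
  · simpa using h1
  · simp only [Fin.mk_one, Pi.zero_apply]
    linear_combination h3 - h1 - h2
  · simpa using h2
  · show q 3 = 0
    linear_combination h4 - h1
  · show q 4 = 0
    linear_combination h5 - h2

omit [Fintype J] in
lemma continuous_pt (x : Option J → ℂ) : Continuous fun p : (J → ℂ) × ℂ => pt x p.1 p.2 := by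
  apply continuous_pi
  intro o
  rcases o with _ | j
  · exact continuous_snd
  · show Continuous fun p : (J → ℂ) × ℂ => p.1 j + p.2 * x (some j)
    fun_prop

/-- Closedness of `HasConic`. -/
theorem hasConic_limit {ι : Type} (x : Option J → ℂ) (Φ0 Φ1 : ι → (Option J → ℂ) → ℂ)
    (h0 : ∀ i, Continuous (Φ0 i)) (h1 : ∀ i, Continuous (Φ1 i)) (τ : ℕ → ℂ)
    (hτ : Tendsto τ atTop (𝓝 1))
    (h : ∀ n, HasConic x (fun i p => (1 - τ n) * Φ0 i p + τ n * Φ1 i p)) :
    HasConic x Φ1 := by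
  choose u v q hu hv huv hq hΦ using h
  have hK : IsCompact ((Metric.sphere (0 : EuclideanSpace ℂ J) 1) ×ˢ
      ((Metric.sphere (0 : EuclideanSpace ℂ J) 1) ×ˢ
        (Metric.sphere (0 : EuclideanSpace ℂ (Fin 5)) 1))) :=
    (isCompact_sphere _ _).prod ((isCompact_sphere _ _).prod (isCompact_sphere _ _))
  obtain ⟨⟨u', v', q'⟩, hmem, φ, hφ, hlim⟩ := hK.tendsto_subseq
    (x := fun n => (u n, v n, q n)) (fun n => by
      simp only [Set.mem_prod, mem_sphere_iff_norm, sub_zero]
      exact ⟨hu n, hv n, hq n⟩)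
  simp only [Set.mem_prod, mem_sphere_iff_norm, sub_zero] at hmem
  have hlu : Tendsto (fun n => u (φ n)) atTop (𝓝 u') :=
    (continuous_fst.tendsto _).comp hlim
  have hlv : Tendsto (fun n => v (φ n)) atTop (𝓝 v') :=
    (continuous_fst.tendsto _).comp ((continuous_snd.tendsto _).comp hlim)
  have hlq : Tendsto (fun n => q (φ n)) atTop (𝓝 q') :=
    (continuous_snd.tendsto _).comp ((continuous_snd.tendsto _).comp hlim)
  have hlτ : Tendsto (fun n => τ (φ n)) atTop (𝓝 1) := hτ.comp hφ.tendsto_atTop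
  have hlqi : ∀ i, Tendsto (fun n => q (φ n) i) atTop (𝓝 (q' i)) := by
    intro i
    exact ((EuclideanSpace.proj i : EuclideanSpace ℂ (Fin 5) →L[ℂ] ℂ).continuous.tendsto _).comp
      hlq
  have hquad : ∀ {a b t : ℕ → ℂ} {a' b' t' : ℂ}, Tendsto a atTop (𝓝 a') →
      Tendsto b atTop (𝓝 b') → Tendsto t atTop (𝓝 t') →
      Tendsto (fun n => quad (q (φ n)) (a n) (b n) (t n)) atTop (𝓝 (quad q' a' b' t')) := by
    intro a b t a' b' t' ha hb ht
    unfold quad
    exact (((((hlqi 0).mul (ha.pow 2)).add ((hlqi 1).mul (ha.mul hb))).add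
      ((hlqi 2).mul (hb.pow 2))).add (ht.mul (((hlqi 3).mul ha).add ((hlqi 4).mul hb))))
  refine ⟨u', v', q', hmem.1, hmem.2.1, ?_, hmem.2.2, ?_⟩
  · have h2 : Tendsto (fun n => inner ℂ (u (φ n)) (v (φ n))) atTop (𝓝 (inner ℂ u' v')) :=
      hlu.inner hlv
    simp only [huv] at h2
    exact tendsto_nhds_unique h2 tendsto_const_nhds |>.symm ▸ rfl
  · intro a b t habt i
    have hq'0 : (q' : Fin 5 → ℂ) ≠ 0 := by
      intro h2
      have h3 : q' = 0 := by
        ext i
        exact congrFun h2 i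
      rw [h3, norm_zero] at hmem
      exact zero_ne_one hmem.2.2
    obtain ⟨a1, b1, t1, hne⟩ := exists_quad_ne hq'0
    -- the quadratic polynomial along the direction
    have hexp : ∀ (p : Fin 5 → ℂ) (l : ℂ), quad p (a + l * a1) (b + l * b1) (t + l * t1) =
        quad p a b t + (2 * p 0 * a * a1 + p 1 * (a * b1 + a1 * b) + 2 * p 2 * b * b1 +
          t * (p 3 * a1 + p 4 * b1) + t1 * (p 3 * a + p 4 * b)) * l +
          quad p a1 b1 t1 * l ^ 2 := by
      intro p l
      unfold quad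
      ring
    have hA : Tendsto (fun n => quad (q (φ n)) a b t) atTop (𝓝 0) := by
      rw [← habt]
      exact hquad tendsto_const_nhds tendsto_const_nhds tendsto_const_nhds
    have hC : Tendsto (fun n => quad (q (φ n)) a1 b1 t1) atTop (𝓝 (quad q' a1 b1 t1)) :=
      hquad tendsto_const_nhds tendsto_const_nhds tendsto_const_nhds
    have hroot : ∀ n, ∃ l : ℂ, quad (q (φ n)) a1 b1 t1 ≠ 0 →
        quad (q (φ n)) (a + l * a1) (b + l * b1) (t + l * t1) = 0 ∧
        ‖l‖ ^ 2 * ‖quad (q (φ n)) a1 b1 t1‖ ≤ ‖quad (q (φ n)) a b t‖ := by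
      intro n
      by_cases hn : quad (q (φ n)) a1 b1 t1 = 0
      · exact ⟨0, fun h => absurd hn h⟩
      · obtain ⟨l, hl1, hl2⟩ := small_root (quad (q (φ n)) a b t)
          (2 * q (φ n) 0 * a * a1 + q (φ n) 1 * (a * b1 + a1 * b) + 2 * q (φ n) 2 * b * b1 +
          t * (q (φ n) 3 * a1 + q (φ n) 4 * b1) + t1 * (q (φ n) 3 * a + q (φ n) 4 * b)) _ hn
        refine ⟨l, fun _ => ⟨?_, hl2⟩⟩
        rw [hexp]
        exact hl1
    choose l hl using hroot
    have hCne : ∀ᶠ n in atTop, quad (q (φ n)) a1 b1 t1 ≠ 0 := hC.eventually_ne hne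
    have hl0 : Tendsto l atTop (𝓝 0) := by
      rw [tendsto_zero_iff_norm_tendsto_zero]
      have h3 : Tendsto (fun n => ‖quad (q (φ n)) a b t‖ / ‖quad (q (φ n)) a1 b1 t1‖) atTop
          (𝓝 0) := by
        have := (hA.norm).div hC.norm (norm_ne_zero_iff.mpr hne)
        rw [norm_zero, zero_div] at this
        exact this
      have h4 : Tendsto (fun n => ‖l n‖ ^ 2) atTop (𝓝 0) := by
        refine squeeze_zero' (Filter.Eventually.of_forall fun n => by positivity) ?_ h3
        filter_upwards [hCne] with n hn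
        rw [le_div_iff₀ (norm_pos_iff.mpr hn)]
        exact (hl n hn).2
      have h5 := h4.sqrt
      simp only [Real.sqrt_zero] at h5
      refine h5.congr fun n => ?_
      exact Real.sqrt_sq (norm_nonneg _)
    have hla : Tendsto (fun n => a + l n * a1) atTop (𝓝 a) := by
      simpa using (tendsto_const_nhds (x := a)).add (hl0.mul_const a1)
    have hlb : Tendsto (fun n => b + l n * b1) atTop (𝓝 b) := by
      simpa using (tendsto_const_nhds (x := b)).add (hl0.mul_const b1)
    have hlt : Tendsto (fun n => t + l n * t1) atTop (𝓝 t) := by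
      simpa using (tendsto_const_nhds (x := t)).add (hl0.mul_const t1)
    have hw : Tendsto (fun n => (a + l n * a1) • u (φ n) + (b + l n * b1) • v (φ n)) atTop
        (𝓝 (a • u' + b • v')) := (hla.smul hlu).add (hlb.smul hlv)
    have hw' : Tendsto (fun n => ((((a + l n * a1) • u (φ n) + (b + l n * b1) • v (φ n) :
        EuclideanSpace ℂ J) : J → ℂ))) atTop (𝓝 ((a • u' + b • v' : EuclideanSpace ℂ J))) := by
      rw [tendsto_pi_nhds]
      intro j
      exact ((EuclideanSpace.proj j : EuclideanSpace ℂ J →L[ℂ] ℂ).continuous.tendsto _).comp hw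
    have hp : Tendsto (fun n => pt x ((a + l n * a1) • u (φ n) + (b + l n * b1) • v (φ n) :
        EuclideanSpace ℂ J) (t + l n * t1)) atTop
        (𝓝 (pt x (a • u' + b • v' : EuclideanSpace ℂ J) t)) :=
      ((continuous_pt x).tendsto _).comp (hw'.prodMk_nhds hlt)
    have hf : Tendsto (fun n => (1 - τ (φ n)) * Φ0 i (pt x ((a + l n * a1) • u (φ n) +
        (b + l n * b1) • v (φ n) : EuclideanSpace ℂ J) (t + l n * t1)) +
        τ (φ n) * Φ1 i (pt x ((a + l n * a1) • u (φ n) +
        (b + l n * b1) • v (φ n) : EuclideanSpace ℂ J) (t + l n * t1))) atTop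
        (𝓝 ((1 - 1) * Φ0 i (pt x (a • u' + b • v' : EuclideanSpace ℂ J) t) +
          1 * Φ1 i (pt x (a • u' + b • v' : EuclideanSpace ℂ J) t))) :=
      ((tendsto_const_nhds.sub hlτ).mul (((h0 i).tendsto _).comp hp)).add
        (hlτ.mul (((h1 i).tendsto _).comp hp))
    have hz : Tendsto (fun n => (1 - τ (φ n)) * Φ0 i (pt x ((a + l n * a1) • u (φ n) +
        (b + l n * b1) • v (φ n) : EuclideanSpace ℂ J) (t + l n * t1)) +
        τ (φ n) * Φ1 i (pt x ((a + l n * a1) • u (φ n) +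
        (b + l n * b1) • v (φ n) : EuclideanSpace ℂ J) (t + l n * t1))) atTop (𝓝 0) := by
      apply tendsto_const_nhds.congr'
      filter_upwards [hCne] with n hn
      exact (hΦ (φ n) _ _ _ (hl n hn).1 i).symm
    have := tendsto_nhds_unique hf hz
    simpa using this

end Pool.Agent.H71.Conic
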