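import Mathlib
import Pool.Agent.H71.Conic.Limit

/-!
# Parametrisation of a plane conic through a point by the multiplicative group
-/

set_option autoImplicit false

namespace Pool.Agent.H71.Conic

variable {J : Type} [Fintype J]

/-- The linear part of the conic at the base point. -/
def lin (q : Fin 5 → ℂ) (a b : ℂ) : ℂ := q 3 * a + q 4 * b

/-- The quadratic part of the conic. -/
def mm (q : Fin 5 → ℂ) (a b : ℂ) : ℂ := q 0 * a ^ 2 + q 1 * (a * b) + q 2 * b ^ 2

lemma quad_eq (q : Fin 5 → ℂ) (a b t : ℂ) : quad q a b t = mm q a b + t * lin q a b := rfl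

/-- A binary quadratic form has a nontrivial zero. -/
lemma exists_zero_mm (q : Fin 5 → ℂ) : ∃ a b : ℂ, (a ≠ 0 ∨ b ≠ 0) ∧ mm q a b = 0 := by
  by_cases h0 : q 0 = 0
  · exact ⟨1, 0, Or.inl one_ne_zero, by simp [mm, h0]⟩
  · obtain ⟨s, hs⟩ := IsAlgClosed.exists_pow_nat_eq (q 1 ^ 2 - 4 * q 0 * q 2) (n := 2)
      (by norm_num)
    refine ⟨(-q 1 + s) / (2 * q 0), 1, Or.inr one_ne_zero, ?_⟩
    unfold mm
    field_simp
    linear_combination hs

/-- Normal form of a conic without a line through the base point. -/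
lemma exists_frame (q : Fin 5 → ℂ)
    (hno : ∀ a b : ℂ, (a ≠ 0 ∨ b ≠ 0) → lin q a b = 0 → mm q a b ≠ 0) :
    ∃ a1 b1 a2 b2 κ ρ : ℂ, a1 * b2 - a2 * b1 ≠ 0 ∧ lin q a1 b1 ≠ 0 ∧ lin q a2 b2 ≠ 0 ∧
      (∀ s, mm q (a1 * s + a2) (b1 * s + b2) = κ * s + ρ) ∧ (∀ s : ℂ, s ≠ 0 → κ * s + ρ ≠ 0) := by
  obtain ⟨a1, b1, hne, hm⟩ := exists_zero_mm q
  have hl1 : lin q a1 b1 ≠ 0 := fun h => hno a1 b1 hne h hm
  obtain ⟨a2, b2, hdet⟩ : ∃ a2 b2 : ℂ, a1 * b2 - a2 * b1 ≠ 0 := by
    rcases hne with h | h
    · exact ⟨0, 1, by simpa using h⟩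
    · exact ⟨-1, 0, by simpa using h⟩
  set κ : ℂ := 2 * q 0 * a1 * a2 + q 1 * (a1 * b2 + a2 * b1) + 2 * q 2 * b1 * b2 with hκ
  have hmm : ∀ s, mm q (a1 * s + a2) (b1 * s + b2) = κ * s + mm q a2 b2 := by
    intro s
    have : mm q (a1 * s + a2) (b1 * s + b2) = mm q a1 b1 * s ^ 2 + κ * s + mm q a2 b2 := by
      unfold mm
      rw [hκ]
      ring
    rw [this, hm]
    ring
  by_cases hκ0 : κ = 0
  · have hρ : mm q a2 b2 ≠ 0 := by
      intro h0
      have h1 : lin q (lin q a2 b2 * a1 - lin q a1 b1 * a2)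
          (lin q a2 b2 * b1 - lin q a1 b1 * b2) = 0 := by
        unfold lin; ring
      have h2 : mm q (lin q a2 b2 * a1 - lin q a1 b1 * a2)
          (lin q a2 b2 * b1 - lin q a1 b1 * b2) = (lin q a2 b2) ^ 2 * mm q a1 b1 +
            (lin q a1 b1) ^ 2 * mm q a2 b2 - lin q a1 b1 * lin q a2 b2 * κ := by
        rw [hκ]
        unfold mm
        ring
      rw [hm, h0, hκ0] at h2
      refine hno _ _ ?_ h1 (by rw [h2]; ring)
      by_contra hcon
      push Not at hcon
      obtain ⟨h3, h4⟩ := hcon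
      apply hdet
      have h5 : lin q a1 b1 * (a1 * b2 - a2 * b1) = 0 := by
        linear_combination b1 * h3 - a1 * h4
      rcases mul_eq_zero.mp h5 with h | h
      · exact absurd h hl1
      · exact h
    by_cases hl2 : lin q a2 b2 = 0
    · refine ⟨a1, b1, a2 + a1, b2 + b1, 0, mm q a2 b2, ?_, hl1, ?_, ?_, ?_⟩
      · intro h
        apply hdet
        linear_combination h
      · have : lin q (a2 + a1) (b2 + b1) = lin q a2 b2 + lin q a1 b1 := by
          unfold lin; ring
        rw [this, hl2, zero_add]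
        exact hl1
      · intro s
        have h1 := hmm (s + 1)
        rw [hκ0] at h1
        rw [← show mm q (a1 * (s + 1) + a2) (b1 * (s + 1) + b2) =
          mm q (a1 * s + (a2 + a1)) (b1 * s + (b2 + b1)) by congr 1 <;> ring, h1]
        ring
      · intro s _
        simpa using hρ
    · refine ⟨a1, b1, a2, b2, 0, mm q a2 b2, hdet, hl1, hl2, ?_, ?_⟩
      · intro s
        rw [hmm, hκ0]
      · intro s _
        simpa using hρ
  · set c := -(mm q a2 b2 / κ) with hc
    have hm2 : mm q (a1 * c + a2) (b1 * c + b2) = 0 := by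
      rw [hmm, hc]
      field_simp
      ring
    have hdet' : a1 * (b1 * c + b2) - (a1 * c + a2) * b1 ≠ 0 := by
      intro h
      apply hdet
      linear_combination h
    refine ⟨a1, b1, a1 * c + a2, b1 * c + b2, κ, 0, hdet', hl1, ?_, ?_, ?_⟩
    · intro h
      refine hno _ _ ?_ h hm2
      by_contra hcon
      push Not at hcon
      apply hdet'
      rw [hcon.1, hcon.2]
      ring
    · intro s
      have h1 := hmm (s + c)
      rw [show mm q (a1 * s + (a1 * c + a2)) (b1 * s + (b1 * c + b2)) =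
          mm q (a1 * (s + c) + a2) (b1 * (s + c) + b2) by congr 1 <;> ring, h1, hc]
      field_simp
      ring
    · intro s hs
      rw [add_zero]
      exact mul_ne_zero hκ0 hs

/-- The parametrisation. -/
theorem param_of_hasConic {ι : Type} (x : Option J → ℂ) (hx : x none = 1)
    (Φ : ι → (Option J → ℂ) → ℂ) (h : HasConic x Φ) :
    ∃ P Q R : Option J → ℂ, (∀ s : ℂ, s ≠ 0 → (P + s • Q + s ^ 2 • R) none ≠ 0 ∧
        ∀ i, Φ i (P + s • Q + s ^ 2 • R) = 0) ∧
      ∃ s0 s2 ρ : ℂ, s0 ≠ 0 ∧ s2 ≠ 0 ∧ ρ ≠ 0 ∧ P + s0 • Q + s0 ^ 2 • R = ρ • x ∧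
        ∀ r k : ℂ, r • (P + s0 • Q + s0 ^ 2 • R) = k • (P + s2 • Q + s2 ^ 2 • R) →
          r = 0 ∧ k = 0 := by
  obtain ⟨u, v, q, hu, hv, huv, hq, hΦ⟩ := h
  have hindep : ∀ a b : ℂ, (a ≠ 0 ∨ b ≠ 0) →
      ((a • u + b • v : EuclideanSpace ℂ J) : J → ℂ) ≠ 0 := by
    intro a b hab h0
    have h1 : a • u + b • v = (0 : EuclideanSpace ℂ J) := by
      ext j
      exact congrFun h0 j
    have h2 : inner ℂ u (a • u + b • v) = a := by
      rw [inner_add_right, inner_smul_right, inner_smul_right, huv,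
        inner_self_eq_norm_sq_to_K, hu]
      simp
    have h3 : inner ℂ v (a • u + b • v) = b := by
      rw [inner_add_right, inner_smul_right, inner_smul_right,
        inner_self_eq_norm_sq_to_K, hv, inner_eq_zero_symm.mp huv]
      simp
    rw [h1, inner_zero_right] at h2 h3
    rcases hab with h | h
    · exact h h2.symm
    · exact h h3.symm
  have hx1 : ∀ t : ℂ, pt x 0 t = t • x := by
    intro t
    funext o
    rcases o with _ | j
    · simp [pt, hx]
    · simp [pt]
  have hptadd : ∀ (w w' : J → ℂ) (t t' : ℂ), pt x (w + w') (t + t') = pt x w t + pt x w' t' := by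
    intro w w' t t'
    funext o
    rcases o with _ | j
    · simp [pt]
    · simp [pt]
      ring
  have hfinal : ∀ (w : J → ℂ) (t ρ r k : ℂ), w ≠ 0 → ρ ≠ 0 → r • (ρ • x) = k • pt x w t →
      r = 0 ∧ k = 0 := by
    intro w t ρ r k hw hρ hrk
    have h1 := congrFun hrk none
    simp only [Pi.smul_apply, smul_eq_mul, hx, mul_one, pt, Option.elim_none] at h1
    have hk : k = 0 := by
      by_contra hk
      apply hw
      funext j
      have h2 := congrFun hrk (some j)
      simp only [Pi.smul_apply, smul_eq_mul, pt, Option.elim_some] at h2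
      have h3 : k * w j = 0 := by
        linear_combination -h2 + x (some j) * h1
      rcases mul_eq_zero.mp h3 with h | h
      · exact absurd h hk
      · simpa using h
    refine ⟨?_, hk⟩
    rw [hk, zero_mul] at h1
    rcases mul_eq_zero.mp h1 with h | h
    · exact h
    · exact absurd h hρ
  by_cases hline : ∃ a b : ℂ, (a ≠ 0 ∨ b ≠ 0) ∧ lin q a b = 0 ∧ mm q a b = 0
  · obtain ⟨a, b, hab, hl, hm⟩ := hline
    set w : J → ℂ := ((a • u + b • v : EuclideanSpace ℂ J) : J → ℂ) with hw
    have hw0 : w ≠ 0 := hindep a b hab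
    have heq : ∀ s : ℂ, pt x (-w) 1 + s • pt x w 0 + s ^ 2 • (0 : Option J → ℂ) =
        pt x ((s - 1) • w) 1 := by
      intro s
      rw [smul_zero, add_zero, ← pt_smul, ← hptadd]
      congr 1
      · funext j
        simp
        ring
      · ring
    refine ⟨pt x (-w) 1, pt x w 0, 0, ?_, 1, 2, 1, one_ne_zero, two_ne_zero, one_ne_zero, ?_, ?_⟩
    · intro s _
      rw [heq]
      refine ⟨by simp [pt], fun i => ?_⟩
      have h1 := hΦ ((s - 1) * a) ((s - 1) * b) 1 (by
        rw [quad_eq]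
        have e1 : mm q ((s - 1) * a) ((s - 1) * b) = (s - 1) ^ 2 * mm q a b := by
          unfold mm; ring
        have e2 : lin q ((s - 1) * a) ((s - 1) * b) = (s - 1) * lin q a b := by
          unfold lin; ring
        rw [e1, e2, hl, hm]
        ring) i
      have h2 : ((((s - 1) * a) • u + ((s - 1) * b) • v : EuclideanSpace ℂ J) : J → ℂ) =
          (s - 1) • w := by
        rw [hw]
        funext j
        simp
        ring
      rw [h2] at h1
      exact h1
    · rw [heq, sub_self, zero_smul, hx1]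
    · intro r k hrk
      rw [heq, heq, sub_self, zero_smul, hx1] at hrk
      exact hfinal _ _ _ r k (by
        rw [show (2 : ℂ) - 1 = 1 by norm_num, one_smul]
        exact hw0) one_ne_zero hrk
  · push Not at hline
    obtain ⟨a1, b1, a2, b2, κ, ρ, hdet, hl1, hl2, hmm, hne⟩ := exists_frame q hline
    set l1 := lin q a1 b1 with hl1'
    set l2 := lin q a2 b2 with hl2'
    set W1 : J → ℂ := ((a1 • u + b1 • v : EuclideanSpace ℂ J) : J → ℂ) with hW1
    set W2 : J → ℂ := ((a2 • u + b2 • v : EuclideanSpace ℂ J) : J → ℂ) with hW2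
    have hlin : ∀ s, lin q (a1 * s + a2) (b1 * s + b2) = l1 * s + l2 := by
      intro s
      rw [hl1', hl2']
      unfold lin
      ring
    have heq : ∀ s : ℂ, pt x (-(l2 • W2)) ρ + s • pt x (-(l1 • W2 + l2 • W1)) κ +
        s ^ 2 • pt x (-(l1 • W1)) 0 = pt x (-((l1 * s + l2) • (s • W1 + W2))) (κ * s + ρ) := by
      intro s
      rw [← pt_smul, ← pt_smul, ← hptadd, ← hptadd]
      congr 1
      · funext j
        simp only [Pi.add_apply, Pi.neg_apply, Pi.smul_apply, smul_eq_mul]
        ring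
      · ring
    have hWs : ∀ s : ℂ, (((a1 * s + a2) • u + (b1 * s + b2) • v : EuclideanSpace ℂ J) :
        J → ℂ) = s • W1 + W2 := by
      intro s
      rw [hW1, hW2]
      funext j
      simp
      ring
    have hs0 : -(l2 / l1) ≠ 0 := neg_ne_zero.mpr (div_ne_zero hl2 hl1)
    refine ⟨pt x (-(l2 • W2)) ρ, pt x (-(l1 • W2 + l2 • W1)) κ, pt x (-(l1 • W1)) 0, ?_,
      -(l2 / l1), 2 * (-(l2 / l1)), κ * (-(l2 / l1)) + ρ, hs0, mul_ne_zero two_ne_zero hs0,
      hne _ hs0, ?_, ?_⟩
    · intro s hs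
      rw [heq]
      refine ⟨by simpa [pt] using hne s hs, fun i => ?_⟩
      have h1 := hΦ (-(l1 * s + l2) * (a1 * s + a2)) (-(l1 * s + l2) * (b1 * s + b2))
        (κ * s + ρ) (by
          rw [quad_eq]
          have e1 : mm q (-(l1 * s + l2) * (a1 * s + a2)) (-(l1 * s + l2) * (b1 * s + b2)) =
              (l1 * s + l2) ^ 2 * mm q (a1 * s + a2) (b1 * s + b2) := by
            unfold mm; ring
          have e2 : lin q (-(l1 * s + l2) * (a1 * s + a2)) (-(l1 * s + l2) * (b1 * s + b2)) =
              -(l1 * s + l2) * lin q (a1 * s + a2) (b1 * s + b2) := by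
            unfold lin; ring
          rw [e1, e2, hmm, hlin]
          ring) i
      have h2 : (((-(l1 * s + l2) * (a1 * s + a2)) • u + (-(l1 * s + l2) * (b1 * s + b2)) • v :
          EuclideanSpace ℂ J) : J → ℂ) = -((l1 * s + l2) • (s • W1 + W2)) := by
        rw [← hWs s]
        funext j
        simp
        ring
      rw [h2] at h1
      exact h1
    · rw [heq]
      have h1 : l1 * (-(l2 / l1)) + l2 = 0 := by
        field_simp
        ring
      rw [h1, zero_smul, neg_zero, hx1]
    · intro r k hrk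
      rw [heq, heq] at hrk
      have h1 : l1 * (-(l2 / l1)) + l2 = 0 := by
        field_simp
        ring
      have h2 : l1 * (2 * (-(l2 / l1))) + l2 = -l2 := by
        field_simp
        ring
      rw [h1, zero_smul, neg_zero, hx1, h2] at hrk
      refine hfinal _ _ _ r k ?_ (hne _ hs0) hrk
      rw [neg_smul, neg_neg, ← hWs]
      intro h0
      have h3 : ((a1 * (2 * (-(l2 / l1))) + a2) ≠ 0 ∨ (b1 * (2 * (-(l2 / l1))) + b2) ≠ 0) := by
        by_contra hcon
        push Not at hcon
        apply hdet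
        linear_combination a1 * hcon.2 - b1 * hcon.1
      have h4 := hindep _ _ h3
      apply h4
      rcases smul_eq_zero.mp h0 with h | h
      · exact absurd h hl2
      · exact h

end Pool.Agent.H71.Conic
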