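import Mathlib
import Pool.Agent.H71.Conic.Limit

/-!
# From parametrised conics to plane conics and back
-/

set_option autoImplicit false

open Filter Topology

namespace Pool.Agent.H71.Conic

variable {J : Type} [Fintype J]

/-- A vanishing statement off one value extends by continuity. -/
lemma eq_zero_of_ne {f : ℂ → ℂ} (hf : Continuous f) (c : ℂ) (h : ∀ z, z ≠ c → f z = 0) (z : ℂ) :
    f z = 0 := by
  have hdense : Dense ({c}ᶜ : Set ℂ) := dense_compl_singleton c
  have := Continuous.ext_on hdense hf continuous_const (g := fun _ => (0 : ℂ))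
    (fun w hw => h w (by simpa using hw))
  exact congrFun this z

omit [Fintype J] in
/-- The parametrised conic in homogeneous form. -/
lemma vanish_homog {e : ℕ} (x : Option J → ℂ) (Φ : (Option J → ℂ) → ℂ) (hc : Continuous Φ)
    (hh : ∀ (k : ℂ) p, Φ (k • p) = k ^ e * Φ p) (B D : J → ℂ)
    (h : ∀ s : ℂ, Φ (pt x ((s ^ 2 - s) • B + (1 - s) • D) s) = 0) (s r : ℂ) :
    Φ (pt x ((s ^ 2 - s * r) • B + (r ^ 2 - s * r) • D) (s * r)) = 0 := by
  have hcont : Continuous fun r : ℂ =>
      Φ (pt x ((s ^ 2 - s * r) • B + (r ^ 2 - s * r) • D) (s * r)) := by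
    apply hc.comp
    exact (continuous_pt x).comp (by fun_prop : Continuous fun r : ℂ =>
      ((s ^ 2 - s * r) • B + (r ^ 2 - s * r) • D, s * r))
  apply eq_zero_of_ne hcont 0
  intro r hr
  have h1 : pt x ((s ^ 2 - s * r) • B + (r ^ 2 - s * r) • D) (s * r) =
      (r ^ 2) • pt x (((s / r) ^ 2 - s / r) • B + (1 - s / r) • D) (s / r) := by
    rw [← pt_smul]
    congr 1
    · funext j
      simp only [Pi.add_apply, Pi.smul_apply, smul_eq_mul]
      field_simp
    · field_simp
  rw [h1, hh, h, mul_zero]

/-- A parametrised conic gives a plane conic. -/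
theorem hasConic_of_param {ι : Type} (e : ι → ℕ) (hJ : 2 ≤ Fintype.card J)
    (x : Option J → ℂ) (Φ : ι → (Option J → ℂ) → ℂ) (hc : ∀ i, Continuous (Φ i))
    (hh : ∀ i (k : ℂ) p, Φ i (k • p) = k ^ (e i) * Φ i p) (B D : J → ℂ) (hB : B ≠ 0)
    (h : ∀ i (s : ℂ), Φ i (pt x ((s ^ 2 - s) • B + (1 - s) • D) s) = 0) :
    HasConic x Φ := by
  classical
  have hv := fun i => vanish_homog x (Φ i) (hc i) (hh i) B D (h i)
  -- the vectors in the Euclidean space
  set B' : EuclideanSpace ℂ J := WithLp.toLp 2 B with hB'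
  set D' : EuclideanSpace ℂ J := WithLp.toLp 2 D with hD'
  have hB'0 : B' ≠ 0 := by
    intro h0
    apply hB
    funext j
    have := congrArg (fun w : EuclideanSpace ℂ J => w j) h0
    simpa [hB'] using this
  have hnB : (‖B'‖ : ℂ) ≠ 0 := by
    exact_mod_cast norm_ne_zero_iff.mpr hB'0
  set u : EuclideanSpace ℂ J := (‖B'‖⁻¹ : ℂ) • B' with hu
  have hun : ‖u‖ = 1 := by
    rw [hu, norm_smul]
    simp [norm_ne_zero_iff.mpr hB'0]
  have hBu : B' = (‖B'‖ : ℂ) • u := by
    rw [hu, smul_smul, mul_inv_cancel₀ hnB, one_smul]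
  set W : EuclideanSpace ℂ J := D' - (inner ℂ u D') • u with hW
  have huW : inner ℂ u W = 0 := by
    rw [hW, inner_sub_right, inner_smul_right, inner_self_eq_norm_sq_to_K, hun]
    simp
  by_cases hW0 : W = 0
  · -- the conic is a line
    have hDu : D' = (inner ℂ u D') • u := by
      rw [hW, sub_eq_zero] at hW0
      exact hW0
    set κ : ℂ := (‖B'‖⁻¹ : ℂ) * inner ℂ u D' with hκ
    have hDB' : D' = κ • B' := by
      rw [hκ]
      conv_lhs => rw [hDu]
      rw [hu]
      rw [smul_smul, mul_comm]
    have hDB : D = κ • B := by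
      have := congrArg (WithLp.ofLp) hDB'
      simpa [hB', hD'] using this
    obtain ⟨v, hvn, huv⟩ : ∃ v : EuclideanSpace ℂ J, ‖v‖ = 1 ∧ inner ℂ u v = 0 := by
      have hfin : Module.finrank ℂ (Submodule.span ℂ {u}) < Module.finrank ℂ
          (EuclideanSpace ℂ J) := by
        rw [finrank_euclideanSpace]
        have hu0 : u ≠ 0 := by
          intro h0
          rw [h0, norm_zero] at hun
          exact zero_ne_one hun
        rw [finrank_span_singleton hu0]
        omega
      obtain ⟨v0, hv0⟩ : ∃ v0 : EuclideanSpace ℂ J, v0 ∉ Submodule.span ℂ {u} := by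
        by_contra hcon
        push Not at hcon
        have : Submodule.span ℂ {u} = ⊤ := by
          rw [eq_top_iff]
          intro z _
          exact hcon z
        rw [this, finrank_top] at hfin
        exact lt_irrefl _ hfin
      set v1 := v0 - (inner ℂ u v0) • u with hv1
      have hv10 : v1 ≠ 0 := by
        intro h0
        apply hv0
        rw [hv1, sub_eq_zero] at h0
        rw [h0]
        exact Submodule.smul_mem _ _ (Submodule.mem_span_singleton_self u)
      refine ⟨(‖v1‖⁻¹ : ℂ) • v1, ?_, ?_⟩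
      · rw [norm_smul]
        simp [norm_ne_zero_iff.mpr hv10]
      · rw [inner_smul_right, hv1, inner_sub_right, inner_smul_right,
          inner_self_eq_norm_sq_to_K, hun]
        simp
    refine ⟨u, v, EuclideanSpace.single 2 1, hun, hvn, huv, by simp, ?_⟩
    intro a b t habt i
    have hb : b = 0 := by
      simp [quad] at habt
      exact habt
    subst hb
    -- vanishing on the line
    have hline : ∀ l : ℂ, Φ i (pt x (l • B) 1) = 0 := by
      have hcont : Continuous fun l : ℂ => Φ i (pt x (l • B) 1) := by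
        apply (hc i).comp
        exact (continuous_pt x).comp (by fun_prop : Continuous fun l : ℂ => (l • B, (1 : ℂ)))
      apply eq_zero_of_ne hcont (-(1 + κ))
      intro l hl
      obtain ⟨S, hS0, hS⟩ : ∃ S : ℂ, S ≠ 0 ∧ S ^ 2 - (1 + κ + l) * S + κ = 0 := by
        have hne : 1 + κ + l ≠ 0 := by
          intro h0
          apply hl
          linear_combination h0
        obtain ⟨r, hr⟩ := IsAlgClosed.exists_pow_nat_eq ((1 + κ + l) ^ 2 - 4 * κ) (n := 2)
          (by norm_num)
        by_cases h0 : (1 + κ + l) + r = 0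
        · refine ⟨((1 + κ + l) - r) / 2, ?_, ?_⟩
          · intro h1
            apply hne
            have h2 : (1 + κ + l) - r = 0 := by
              rcases div_eq_zero_iff.mp h1 with h | h
              · exact h
              · norm_num at h
            linear_combination (h0 + h2) / 2
          · linear_combination hr / 4
        · refine ⟨((1 + κ + l) + r) / 2, div_ne_zero h0 (by norm_num), ?_⟩
          linear_combination hr / 4
      obtain ⟨s, hs⟩ := IsAlgClosed.exists_pow_nat_eq S (n := 2) (by norm_num)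
      have hs0 : s ≠ 0 := by
        intro h0
        apply hS0
        rw [← hs, h0]
        ring
      have h2 := hv i s s⁻¹
      rw [hDB, mul_inv_cancel₀ hs0] at h2
      have h3 : (s ^ 2 - 1) • B + (s⁻¹ ^ 2 - 1) • κ • B = l • B := by
        rw [smul_smul, ← add_smul]
        congr 1
        have h4 : s⁻¹ ^ 2 = S⁻¹ := by rw [inv_pow, hs]
        rw [h4, hs]
        field_simp
        linear_combination hS
      rw [h3] at h2
      exact h2
    have hfun : ∀ a' t' : ℂ, Φ i (pt x (a' • B) t') = 0 := by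
      intro a'
      have hcont : Continuous fun t' : ℂ => Φ i (pt x (a' • B) t') := by
        apply (hc i).comp
        exact (continuous_pt x).comp (by fun_prop : Continuous fun t' : ℂ => (a' • B, t'))
      apply eq_zero_of_ne hcont 0
      intro t' ht'
      have h4 : pt x (a' • B) t' = t' • pt x ((a' / t') • B) 1 := by
        rw [← pt_smul, smul_smul, mul_div_cancel₀ _ ht', mul_one]
      rw [h4, hh, hline, mul_zero]
    have h5 : ((a • u + (0 : ℂ) • v : EuclideanSpace ℂ J) : J → ℂ) =
        (a * (‖B'‖⁻¹ : ℂ)) • B := by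
      funext j
      simp [hu, hB', mul_assoc]
    rw [h5]
    exact hfun _ _
  · -- a nondegenerate conic
    have hnW : (‖W‖ : ℂ) ≠ 0 := by
      exact_mod_cast norm_ne_zero_iff.mpr hW0
    set v : EuclideanSpace ℂ J := (‖W‖⁻¹ : ℂ) • W with hv'
    have hvn : ‖v‖ = 1 := by
      rw [hv', norm_smul]
      simp [norm_ne_zero_iff.mpr hW0]
    have huv : inner ℂ u v = 0 := by
      rw [hv', inner_smul_right, huW, mul_zero]
    have hWv : W = (‖W‖ : ℂ) • v := by
      rw [hv', smul_smul, mul_inv_cancel₀ hnW, one_smul]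
    set β : ℂ := (‖B'‖ : ℂ) with hβ
    set δ : ℂ := (‖W‖ : ℂ) with hδ
    set γ : ℂ := inner ℂ u D' with hγ
    have hDuv : D' = γ • u + δ • v := by
      rw [← hWv, hW]
      abel
    -- coordinates of `a u + b v` in the basis `B, D`
    have hcoord : ∀ a b : ℂ, ((a • u + b • v : EuclideanSpace ℂ J) : J → ℂ) =
        (β⁻¹ * a - γ * δ⁻¹ * β⁻¹ * b) • B + (δ⁻¹ * b) • D := by
      intro a b
      have h1 : a • u + b • v = (β⁻¹ * a - γ * δ⁻¹ * β⁻¹ * b) • B' + (δ⁻¹ * b) • D' := by
        rw [hDuv, hBu]
        simp only [smul_smul, smul_add]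
        have e1 : β⁻¹ * a * β = a := by field_simp
        have e2 : γ * δ⁻¹ * β⁻¹ * b * β = δ⁻¹ * b * γ := by field_simp
        have e3 : δ⁻¹ * b * δ = b := by field_simp
        rw [sub_mul, sub_smul, e1, e2, e3]
        abel
      rw [h1]
      funext j
      simp [hB', hD']
    set α := β⁻¹ with hα
    set κ := -(γ * δ⁻¹ * β⁻¹) with hκ
    set ε := δ⁻¹ with hε
    have hα0 : α ≠ 0 := inv_ne_zero hnB
    set q0 : EuclideanSpace ℂ (Fin 5) :=
      WithLp.toLp 2 ![0, α * ε, κ * ε, α, κ + ε] with hq0
    have hq00 : q0 ≠ 0 := by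
      intro h0
      have := congrArg (fun w : EuclideanSpace ℂ (Fin 5) => w 3) h0
      exact hα0 (by simpa [hq0] using this)
    have hnq : (‖q0‖ : ℂ) ≠ 0 := by exact_mod_cast norm_ne_zero_iff.mpr hq00
    refine ⟨u, v, (‖q0‖⁻¹ : ℂ) • q0, hun, hvn, huv, ?_, ?_⟩
    · rw [norm_smul]
      simp [norm_ne_zero_iff.mpr hq00]
    · intro a b t habt i
      have h1 : quad q0 a b t = 0 := by
        have h2 : quad ((‖q0‖⁻¹ : ℂ) • q0 : EuclideanSpace ℂ (Fin 5)) a b t =
            (‖q0‖⁻¹ : ℂ) * quad q0 a b t := by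
          simp only [quad, PiLp.smul_apply, smul_eq_mul]
          ring
        rw [h2] at habt
        rcases mul_eq_zero.mp habt with h | h
        · exact absurd h (inv_ne_zero hnq)
        · exact h
      set a' := α * a + κ * b with ha'
      set b' := ε * b with hb'
      have h2 : a' * b' + t * (a' + b') = 0 := by
        rw [← h1]
        simp only [quad, hq0, ha', hb']
        simp
        ring
      obtain ⟨s, hs⟩ := IsAlgClosed.exists_pow_nat_eq (a' + t) (n := 2) (by norm_num)
      obtain ⟨r0, hr0⟩ := IsAlgClosed.exists_pow_nat_eq (b' + t) (n := 2) (by norm_num)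
      have h3 : (s * r0) ^ 2 = t ^ 2 := by
        rw [mul_pow, hs, hr0]
        linear_combination h2
      obtain ⟨r, hr, hsr⟩ : ∃ r : ℂ, r ^ 2 = b' + t ∧ s * r = t := by
        rcases sq_eq_sq_iff_eq_or_eq_neg.mp h3 with h | h
        · exact ⟨r0, hr0, h⟩
        · exact ⟨-r0, by rw [neg_sq, hr0], by rw [mul_neg, h, neg_neg]⟩
      have h4 := hv i s r
      rw [hsr, hs, hr] at h4
      have h5 : ((a • u + b • v : EuclideanSpace ℂ J) : J → ℂ) =
          (a' + t - t) • B + (b' + t - t) • D := by
        rw [hcoord]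
        congr 2
        · rw [ha', hκ]; ring
        · rw [hb']; ring
      rw [h5]
      exact h4

end Pool.Agent.H71.Conic
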