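import Mathlib
import Pool.Agent.H71.Conic.Cont
import Pool.Agent.H71.Conic.Plane
import Pool.Agent.H71.Conic.Param

/-!
# A conic through every point of an affine variety of small degree
-/

set_option autoImplicit false

open Filter Topology

namespace Pool.Agent.H71.Conic

open MvPolynomial

lemma eval_smul_hom {σ : Type*} [Fintype σ] {m : ℕ} {G : MvPolynomial σ ℂ}
    (hG : G.IsHomogeneous m) (a : ℂ) (v : σ → ℂ) : eval (a • v) G = a ^ m * eval v G := by
  rw [MvPolynomial.eval_eq', MvPolynomial.eval_eq', Finset.mul_sum]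
  apply Finset.sum_congr rfl
  intro d hd
  have hdeg : ∑ i, d i = m := by
    have := hG (MvPolynomial.mem_support_iff.mp hd)
    rw [← this, Finsupp.weight_apply, Finsupp.sum_fintype]
    · simp
    · simp
  have : ∏ i, (a • v) i ^ d i = a ^ m * ∏ i, v i ^ d i := by
    simp only [Pi.smul_apply, smul_eq_mul, mul_pow]
    rw [Finset.prod_mul_distrib, Finset.prod_pow_eq_pow_sum, hdeg]
  rw [this]
  ring

lemma eval_conic {J : Type} [DecidableEq J] (j0 j1 : J) (hj : j1 ≠ j0) (b d : J → ℂ)
    (H : MvPolynomial (Option J) ℂ) (s : ℂ) :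
    (conic j0 j1 b d H).eval s = eval (pt (base j0 j1)
      ((s ^ 2 - s) • (fun j => b j + if j = j0 then 1 else 0) +
        (1 - s) • (fun j => d j + if j = j1 then 1 else 0)) s) H := by
  unfold conic
  have h : ((Polynomial.evalRingHom s).comp
      (aeval (phi j0 j1 b d) : MvPolynomial (Option J) ℂ →ₐ[ℂ] Polynomial ℂ).toRingHom) =
      eval (pt (base j0 j1) ((s ^ 2 - s) • (fun j => b j + if j = j0 then 1 else 0) +
        (1 - s) • (fun j => d j + if j = j1 then 1 else 0)) s) := by
    apply MvPolynomial.ringHom_ext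
    · intro r
      simp
    · intro o
      rcases o with _ | j
      · simp [phi, pt]
      · simp only [RingHom.comp_apply, AlgHom.toRingHom_eq_coe, RingHom.coe_coe, aeval_X,
          Polynomial.coe_evalRingHom, eval_X, phi, pt, Option.elim_some, Pi.add_apply,
          Pi.smul_apply, smul_eq_mul, phi0, dl, base]
        by_cases h0 : j = j0
        · subst h0
          have h1 : ¬ j = j1 := fun h => hj h.symm
          simp [h1]
          ring
        · by_cases h1 : j = j1
          · subst h1
            simp [h0]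
            ring
          · simp [h0, h1]
            ring
  exact DFunLike.congr_fun h H

variable {c : ℕ} {e : Fin c → ℕ}

/-- The main statement in adapted coordinates. -/
theorem hasConic_coord (i₀ : Fin c) (h : 2 ≤ e i₀)
    (G : Fin c → MvPolynomial (Option (Idx e)) ℂ) (hG : ∀ i, (G i).IsHomogeneous (e i))
    (hG0 : ∀ i, eval (base (⟨i₀, ⟨0, by omega⟩⟩ : Idx e) ⟨i₀, ⟨1, by omega⟩⟩) (G i) = 0) :
    HasConic (base (⟨i₀, ⟨0, by omega⟩⟩ : Idx e) ⟨i₀, ⟨1, by omega⟩⟩)
      (fun i p => eval p (G i)) := by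
  have hcount := exists_conics i₀ h G (fun i => (hG i).totalDegree_le) hG0
  have hdense := hcount.dense_compl ℂ
  obtain ⟨τ, hτ, hlim⟩ := mem_closure_iff_seq_limit.mp (hdense 1)
  apply hasConic_limit _ (fun i p => eval p (spec i₀ h i)) (fun i p => eval p (G i))
    (fun i => MvPolynomial.continuous_eval _) (fun i => MvPolynomial.continuous_eval _) τ hlim
  intro n
  have hn := hτ n
  simp only [Set.mem_compl_iff, Set.mem_ofPred_eq, not_not] at hn
  obtain ⟨b, d, hb, hbd⟩ := hn
  have hj : (⟨i₀, ⟨1, by omega⟩⟩ : Idx e) ≠ ⟨i₀, ⟨0, by omega⟩⟩ := by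
    intro hh
    simp at hh
  refine hasConic_of_param (e := e) ?_ _ _ ?_ ?_
    (fun j => b j + if j = (⟨i₀, ⟨0, by omega⟩⟩ : Idx e) then 1 else 0)
    (fun j => d j + if j = (⟨i₀, ⟨1, by omega⟩⟩ : Idx e) then 1 else 0) ?_ ?_
  · exact Fintype.one_lt_card_iff.mpr ⟨_, _, hj⟩
  · intro i
    exact (continuous_const.mul (MvPolynomial.continuous_eval _)).add
      (continuous_const.mul (MvPolynomial.continuous_eval _))
  · intro i k p
    rw [eval_smul_hom (hG i), eval_smul_hom (isHomogeneous_spec i₀ h i)]
    ring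
  · intro h0
    apply hb
    have := congrFun h0 (⟨i₀, ⟨0, by omega⟩⟩ : Idx e)
    simp only [if_true, Pi.zero_apply] at this
    rw [add_comm]
    exact this
  · intro i s
    have h1 := congrArg (fun p => Polynomial.eval s p) (hbd i)
    simp only [Polynomial.eval_add, Polynomial.eval_mul, Polynomial.eval_C,
      Polynomial.eval_zero, eval_conic _ _ hj] at h1
    exact h1

end Pool.Agent.H71.Conic
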