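import Mathlib
import Pool.Agent.H71.Conic.Main

/-!
# A conic through every point: general position of the hyperplane and of the point
-/

set_option autoImplicit false

namespace Pool.Agent.H71.Conic

open MvPolynomial

/-- A form of degree one is linear. -/
lemma exists_linearMap {n : ℕ} (F : MvPolynomial (Fin n) ℂ) (hF : F.IsHomogeneous 1) :
    ∃ L : (Fin n → ℂ) →ₗ[ℂ] ℂ, ∀ v, eval v F = L v := by
  refine ⟨∑ i, (coeff (Finsupp.single i 1) F) • LinearMap.proj i, fun v => ?_⟩
  have h1 : F = ∑ i, C (coeff (Finsupp.single i 1) F) * X i := by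
    ext d
    rw [coeff_sum]
    simp only [coeff_C_mul, coeff_X]
    by_cases hd : Finsupp.degree d = 1
    · obtain ⟨j, hj⟩ : ∃ j, d = Finsupp.single j 1 := by
        rw [Finsupp.degree_eq_sum] at hd
        obtain ⟨j, -, hj⟩ : ∃ j ∈ Finset.univ, d j ≠ 0 := by
          by_contra hcon
          push Not at hcon
          rw [Finset.sum_eq_zero hcon] at hd
          exact zero_ne_one hd
        refine ⟨j, ?_⟩
        have h2 := Finset.add_sum_erase Finset.univ (fun i => d i) (Finset.mem_univ j)
        have h3 : d j = 1 := by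
          omega
        have h4 : ∑ i ∈ Finset.univ.erase j, d i = 0 := by
          omega
        rw [Finset.sum_eq_zero_iff] at h4
        ext i
        by_cases hij : i = j
        · subst hij
          rw [h3]
          simp
        · rw [h4 i (Finset.mem_erase.mpr ⟨hij, Finset.mem_univ _⟩),
            Finsupp.single_eq_of_ne hij]
      subst hj
      rw [Finset.sum_eq_single j]
      · simp
      · intro b _ hb
        rw [if_neg (fun h => hb ((Finsupp.single_left_injective one_ne_zero) h)), mul_zero]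
      · intro h; exact absurd (Finset.mem_univ _) h
    · rw [Finset.sum_eq_zero]
      · by_contra hne
        apply hd
        have := hF hne
        rw [← this, Finsupp.degree_eq_weight_one]
        rfl
      · intro i _
        rw [if_neg, mul_zero]
        intro h
        apply hd
        rw [← h]
        simp
  conv_lhs => rw [h1]
  rw [map_sum]
  simp [LinearMap.sum_apply]

/-- The case `∑ e = N`. -/
theorem exists_param_eq {N c : ℕ} (e : Fin c → ℕ)
    (G : Fin c → MvPolynomial (Fin (N + 1)) ℂ) (F : MvPolynomial (Fin (N + 1)) ℂ)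
    (hG : ∀ i, (G i).IsHomogeneous (e i)) (hF : F.IsHomogeneous 1)
    (hdeg : ∑ i, e i = N) (hc : c < N) (x : Fin (N + 1) → ℂ)
    (hx : ∀ i, eval x (G i) = 0) (hFx : eval x F ≠ 0) :
    ∃ P Q R : Fin (N + 1) → ℂ, (∀ s : ℂ, s ≠ 0 → eval (P + s • Q + s ^ 2 • R) F ≠ 0 ∧
        ∀ i, eval (P + s • Q + s ^ 2 • R) (G i) = 0) ∧
      ∃ s0 s2 ρ : ℂ, s0 ≠ 0 ∧ s2 ≠ 0 ∧ ρ ≠ 0 ∧ P + s0 • Q + s0 ^ 2 • R = ρ • x ∧
        ∀ r k : ℂ, r • (P + s0 • Q + s0 ^ 2 • R) = k • (P + s2 • Q + s2 ^ 2 • R) →
          r = 0 ∧ k = 0 := by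
  classical
  obtain ⟨i₀, hi₀⟩ : ∃ i₀, 2 ≤ e i₀ := by
    by_contra h
    push Not at h
    have h1 : ∑ i, e i ≤ ∑ _i : Fin c, 1 :=
      Finset.sum_le_sum fun i _ => by have := h i; omega
    simp at h1
    omega
  obtain ⟨L, hL⟩ := exists_linearMap F hF
  rw [hL] at hFx
  have hsurj : Function.Surjective L := by
    intro y
    refine ⟨(y / L x) • x, ?_⟩
    rw [map_smul, smul_eq_mul, div_mul_cancel₀ _ hFx]
  have hrank : Module.finrank ℂ (LinearMap.ker L) = N := by
    have h1 := LinearMap.finrank_range_add_finrank_ker L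
    rw [LinearMap.range_eq_top.mpr hsurj, finrank_top, Module.finrank_self,
      Module.finrank_fin_fun] at h1
    omega
  have hcard : Module.finrank ℂ (Idx e → ℂ) = Module.finrank ℂ (LinearMap.ker L) := by
    rw [hrank, Module.finrank_fintype_fun_eq_card]
    simp [Idx, hdeg]
  let κ : (Idx e → ℂ) ≃ₗ[ℂ] LinearMap.ker L := LinearEquiv.ofFinrankEq _ _ hcard
  set bp : Option (Idx e) → ℂ :=
    base (⟨i₀, ⟨0, by omega⟩⟩ : Idx e) ⟨i₀, ⟨1, by omega⟩⟩ with hbp
  have hbp1 : bp none = 1 := rfl
  -- the linear change of coordinates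
  let A : (Option (Idx e) → ℂ) →ₗ[ℂ] (Idx e → ℂ) :=
    LinearMap.pi fun j => LinearMap.proj (some j) - (bp (some j)) • LinearMap.proj none
  let T : (Option (Idx e) → ℂ) →ₗ[ℂ] (Fin (N + 1) → ℂ) :=
    (LinearMap.proj none : (Option (Idx e) → ℂ) →ₗ[ℂ] ℂ).smulRight x +
      (LinearMap.ker L).subtype.comp (κ.toLinearMap.comp A)
  have hT : ∀ p, T p = p none • x + (κ (A p) : Fin (N + 1) → ℂ) := fun p => rfl
  have hLT : ∀ p, L (T p) = p none * L x := by
    intro p
    have h1 : L (κ (A p) : Fin (N + 1) → ℂ) = 0 := (κ (A p)).2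
    rw [hT, map_add, map_smul, smul_eq_mul, h1, add_zero]
  have hTbp : T bp = x := by
    have h1 : A bp = 0 := by
      funext j
      show bp (some j) - bp (some j) * bp none = 0
      rw [hbp1, mul_one, sub_self]
    rw [hT, h1, map_zero, hbp1, one_smul]
    simp
  have hTinj : ∀ p, T p = 0 → p = 0 := by
    intro p hp
    have h1 := hLT p
    rw [hp, map_zero] at h1
    have h2 : p none = 0 := by
      rcases mul_eq_zero.mp h1.symm with h | h
      · exact h
      · exact absurd h hFx
    rw [hT, h2, zero_smul, zero_add] at hp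
    have h3 : κ (A p) = 0 := by
      apply Subtype.ext
      exact hp
    have h4 : A p = 0 := by
      rwa [map_eq_zero_iff _ κ.injective] at h3
    funext o
    rcases o with _ | j
    · exact h2
    · have h5 := congrFun h4 j
      have h6 : p (some j) - bp (some j) * p none = 0 := h5
      rw [h2, mul_zero, sub_zero] at h6
      exact h6
  -- the transformed forms
  let t : Fin (N + 1) → MvPolynomial (Option (Idx e)) ℂ :=
    fun k => ∑ o, C (T (Pi.single o 1) k) * X o
  have ht : ∀ k, (t k).IsHomogeneous 1 := by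
    intro k
    apply IsHomogeneous.sum
    intro o _
    have := (isHomogeneous_C (Option (Idx e)) (T (Pi.single o 1) k)).mul (isHomogeneous_X ℂ o)
    rwa [zero_add] at this
  have hteval : ∀ p k, eval p (t k) = T p k := by
    intro p k
    have h1 : T p = ∑ o, p o • T (Pi.single o 1) := by
      conv_lhs => rw [LinearMap.pi_apply_eq_sum_univ T p]
      apply Finset.sum_congr rfl
      intro o _
      congr 2
      funext o'
      simp [Pi.single_apply, eq_comm]
    rw [h1]
    show eval p (∑ o, C (T (Pi.single o 1) k) * X o) = _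
    rw [map_sum, Finset.sum_apply]
    apply Finset.sum_congr rfl
    intro o _
    simp [mul_comm]
  let G' : Fin c → MvPolynomial (Option (Idx e)) ℂ := fun i => aeval t (G i)
  have hG'eval : ∀ i p, eval p (G' i) = eval (T p) (G i) := by
    intro i p
    have h1 : ((eval p).comp (aeval t : MvPolynomial (Fin (N + 1)) ℂ →ₐ[ℂ]
        MvPolynomial (Option (Idx e)) ℂ).toRingHom) = eval (T p) := by
      apply MvPolynomial.ringHom_ext
      · intro r
        simp
      · intro k
        simp [hteval]
    exact DFunLike.congr_fun h1 (G i)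
  have hG' : ∀ i, (G' i).IsHomogeneous (e i) := by
    intro i
    have := (hG i).aeval t ht
    rwa [one_mul] at this
  have hcon := hasConic_coord i₀ hi₀ G' hG' (fun i => by
    rw [hG'eval]
    have := hx i
    rw [← hTbp] at this
    exact this)
  obtain ⟨P, Q, R, h1, s0, s2, ρ, hs0, hs2, hρ, h2, h3⟩ :=
    param_of_hasConic bp hbp1 (fun i p => eval p (G' i)) hcon
  have hTu : ∀ s : ℂ, T P + s • T Q + s ^ 2 • T R = T (P + s • Q + s ^ 2 • R) := by
    intro s
    rw [map_add, map_add, map_smul, map_smul]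
  refine ⟨T P, T Q, T R, ?_, s0, s2, ρ, hs0, hs2, hρ, ?_, ?_⟩
  · intro s hs
    rw [hTu]
    obtain ⟨h4, h5⟩ := h1 s hs
    refine ⟨?_, fun i => ?_⟩
    · rw [hL, hLT]
      exact mul_ne_zero h4 hFx
    · rw [← hG'eval]
      exact h5 i
  · rw [hTu, h2, map_smul, hTbp]
  · intro r k hrk
    rw [hTu, hTu, ← map_smul, ← map_smul] at hrk
    apply h3
    have := sub_eq_zero.mpr hrk
    rw [← map_sub] at this
    exact sub_eq_zero.mp (hTinj _ this)

/-- The case `∑ e ≤ N`. -/
theorem exists_param {N c : ℕ} (e : Fin c → ℕ)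
    (G : Fin c → MvPolynomial (Fin (N + 1)) ℂ) (F : MvPolynomial (Fin (N + 1)) ℂ)
    (hG : ∀ i, (G i).IsHomogeneous (e i)) (hF : F.IsHomogeneous 1)
    (hdeg : ∑ i, e i ≤ N) (hc : c < N) (x : Fin (N + 1) → ℂ)
    (hx : ∀ i, eval x (G i) = 0) (hFx : eval x F ≠ 0) :
    ∃ P Q R : Fin (N + 1) → ℂ, (∀ s : ℂ, s ≠ 0 → eval (P + s • Q + s ^ 2 • R) F ≠ 0 ∧
        ∀ i, eval (P + s • Q + s ^ 2 • R) (G i) = 0) ∧
      ∃ s0 s2 ρ : ℂ, s0 ≠ 0 ∧ s2 ≠ 0 ∧ ρ ≠ 0 ∧ P + s0 • Q + s0 ^ 2 • R = ρ • x ∧
        ∀ r k : ℂ, r • (P + s0 • Q + s0 ^ 2 • R) = k • (P + s2 • Q + s2 ^ 2 • R) →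
          r = 0 ∧ k = 0 := by
  classical
  rcases c with _ | c
  · -- no equation: a line
    obtain ⟨L, hL⟩ := exists_linearMap F hF
    obtain ⟨v, hv0, hLv⟩ : ∃ v : Fin (N + 1) → ℂ, v ≠ 0 ∧ L v = 0 := by
      have h1 : Module.finrank ℂ ℂ < Module.finrank ℂ (Fin (N + 1) → ℂ) := by
        rw [Module.finrank_self, Module.finrank_fin_fun]
        omega
      have h2 := LinearMap.ker_ne_bot_of_finrank_lt (f := L) h1
      obtain ⟨v, hv, hv0⟩ := Submodule.exists_mem_ne_zero_of_ne_bot h2
      exact ⟨v, hv0, hv⟩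
    rw [hL] at hFx
    have heq : ∀ s : ℂ, (x - v) + s • v + s ^ 2 • (0 : Fin (N + 1) → ℂ) = x + (s - 1) • v := by
      intro s
      rw [smul_zero, add_zero, sub_smul, one_smul]
      abel
    refine ⟨x - v, v, 0, ?_, 1, 2, 1, one_ne_zero, two_ne_zero, one_ne_zero, ?_, ?_⟩
    · intro s _
      rw [heq, hL, map_add, map_smul, hLv]
      refine ⟨by simpa using hFx, fun i => i.elim0⟩
    · rw [heq]
      simp
    · intro r k hrk
      rw [heq, heq] at hrk
      have h1 := congrArg L hrk
      simp only [map_smul, map_add, hLv, smul_eq_mul, mul_zero, add_zero] at h1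
      have h2 : r = k := mul_right_cancel₀ hFx h1
      subst h2
      have h3 : r • v = 0 := by
        have h4 : r • (x + (1 - 1 : ℂ) • v) = r • x := by simp
        have h5 : r • (x + (2 - 1 : ℂ) • v) = r • x + r • v := by
          norm_num [smul_add]
        rw [h4, h5] at hrk
        exact (left_eq_add.mp hrk)
      rcases smul_eq_zero.mp h3 with h | h
      · exact ⟨h, h⟩
      · exact absurd h hv0
  · -- raise the degree of the first form
    set m := N - ∑ i, e i with hm
    let e' : Fin (c + 1) → ℕ := fun i => if i = 0 then e i + m else e i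
    let G' : Fin (c + 1) → MvPolynomial (Fin (N + 1)) ℂ :=
      fun i => if i = 0 then G i * F ^ m else G i
    have he' : ∑ i, e' i = N := by
      have h1 : ∀ i, e' i = e i + if i = 0 then m else 0 := by
        intro i
        show (if i = 0 then e i + m else e i) = _
        split_ifs <;> simp
      rw [Finset.sum_congr rfl (fun i _ => h1 i), Finset.sum_add_distrib, Finset.sum_ite_eq',
        if_pos (Finset.mem_univ _)]
      omega
    have hG' : ∀ i, (G' i).IsHomogeneous (e' i) := by
      intro i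
      show (if i = 0 then G i * F ^ m else G i).IsHomogeneous (if i = 0 then e i + m else e i)
      split_ifs
      · have := (hG i).mul (hF.pow m)
        rwa [one_mul] at this
      · exact hG i
    obtain ⟨P, Q, R, h1, h2⟩ := exists_param_eq e' G' F hG' hF he' hc x (fun i => by
      show eval x (if i = 0 then G i * F ^ m else G i) = 0
      split_ifs
      · rw [map_mul, hx, zero_mul]
      · exact hx i) hFx
    refine ⟨P, Q, R, ?_, h2⟩
    intro s hs
    obtain ⟨h3, h4⟩ := h1 s hs
    refine ⟨h3, fun i => ?_⟩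
    have h5 := h4 i
    have h6 : eval (P + s • Q + s ^ 2 • R) (if i = 0 then G i * F ^ m else G i) = 0 := h5
    split_ifs at h6
    · rw [map_mul, map_pow] at h6
      rcases mul_eq_zero.mp h6 with h | h
      · exact h
      · exact absurd h (pow_ne_zero _ h3)
    · exact h6

end Pool.Agent.H71.Conic
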